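import Mathlib

/-!
Definitions for the block KL (captain helper45): Weil's bound for Kloosterman sums, by Stepanov's
method, and the number of solutions of `x y = c` modulo `q` in boxes.
-/

open Polynomial

namespace Pool.Agent.Work.MP_122e00_nt.KL

noncomputable section

/-- The Kloosterman sum modulo `q`. -/
def KS (q : ℕ) [NeZero q] (a b : ZMod q) : ℂ :=
  ∑ x : (ZMod q)ˣ, ZMod.stdAddChar (a * (x : ZMod q) + b * ((x⁻¹ : (ZMod q)ˣ) : ZMod q))

open scoped Classical in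
/-- The Kloosterman sum over a finite extension `F` of `ZMod p`. -/
def Sn (p : ℕ) [Fact p.Prime] (F : Type) [Field F] [Fintype F] [Algebra (ZMod p) F]
    (a b : ZMod p) : ℂ :=
  ∑ x : F, if x = 0 then 0 else
    ZMod.stdAddChar (Algebra.trace (ZMod p) F (a • x + b • x⁻¹))

/-- The monic polynomial of degree `n` with the lower coefficients `c`. -/
def mp {F : Type} [CommRing F] (n : ℕ) (c : Fin n → F) : F[X] :=
  X ^ n + ∑ i : Fin n, C (c i) * X ^ (i : ℕ)

open scoped Classical in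
/-- The multiplicative function `η(h) = ψ(a ∑ roots + b ∑ inverse roots)` on monic polynomials. -/
def eta (p : ℕ) [Fact p.Prime] (a b : ZMod p) (h : (ZMod p)[X]) : ℂ :=
  if h.coeff 0 = 0 then 0 else
    ZMod.stdAddChar (-(a * h.nextCoeff) - b * (h.coeff 1 * (h.coeff 0)⁻¹))

/-- The sum of `η` over the monic polynomials of degree `n`. -/
def LS (p : ℕ) [Fact p.Prime] (η : (ZMod p)[X] → ℂ) (n : ℕ) : ℂ :=
  ∑ c : Fin n → ZMod p, η (mp n c)

open scoped Classical in
/-- The prime power sums `∑ deg P η(P)^k` over the monic irreducible `P` and `k ≥ 1` with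
`k deg P = j`. -/
def Lam (p : ℕ) [Fact p.Prime] (η : (ZMod p)[X] → ℂ) (j : ℕ) : ℂ :=
  ∑ d ∈ j.divisors, ∑ c : Fin d → ZMod p,
    if Irreducible (mp d c) then (d : ℂ) * η (mp d c) ^ (j / d) else 0

/-- `gcd(a, b, q)`. -/
def gi (q : ℕ) (a b : ℤ) : ℕ := Nat.gcd (Int.gcd a b) q

open scoped Classical in
/-- The number of the solutions of `x y ≡ c` modulo `q` with `x` prime to `q` in the box
`(x₀, x₀ + A] × (y₀, y₀ + B]`. -/
def Cn (q : ℕ) (c x₀ y₀ : ℤ) (A B : ℕ) : ℕ :=
  ((Finset.Ioc x₀ (x₀ + A) ×ˢ Finset.Ioc y₀ (y₀ + B)).filter fun z =>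
    Int.gcd z.1 q = 1 ∧ (q : ℤ) ∣ z.1 * z.2 - c).card

open scoped Classical in
/-- The number of the integers prime to `q` in `(x₀, x₀ + A]`. -/
def Cp (q : ℕ) (x₀ : ℤ) (A : ℕ) : ℕ :=
  ((Finset.Ioc x₀ (x₀ + A)).filter fun x => Int.gcd x q = 1).card

end

end Pool.Agent.Work.MP_122e00_nt.KL
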