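import Pool.Agent.Work.MP_122e00_nt.KL.StmtsB

set_option autoImplicit false

/-!
# Block KL, item C1: the first two coefficients of the L-function
-/

open Polynomial Finset

namespace Pool.Agent.Work.MP_122e00_nt.KL

namespace IC1

lemma mp_zero {p : ℕ} (c : Fin 0 → ZMod p) : mp 0 c = 1 := by
  unfold mp
  simp

lemma mp_one {p : ℕ} (c : Fin 1 → ZMod p) : mp 1 c = X + C (c 0) := by
  unfold mp
  simp

lemma eta_one (p : ℕ) [Fact p.Prime] (a b : ZMod p) : eta p a b 1 = 1 := by
  unfold eta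
  have h1 : (1 : (ZMod p)[X]).coeff 0 ≠ 0 := by
    rw [coeff_one_zero]
    exact one_ne_zero
  rw [if_neg h1]
  have h2 : (1 : (ZMod p)[X]).nextCoeff = 0 := by
    rw [← C_1, nextCoeff_C_eq_zero]
  have h3 : (1 : (ZMod p)[X]).coeff 1 = 0 := by
    rw [coeff_one]
    simp
  rw [h2, h3]
  simp

lemma eta_lin (p : ℕ) [Fact p.Prime] (a b v : ZMod p) :
    eta p a b (X + C v) = if v = 0 then 0 else ZMod.stdAddChar (-(a * v) - b * v⁻¹) := by
  unfold eta
  have h1 : (X + C v : (ZMod p)[X]).coeff 0 = v := by simp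
  have h2 : (X + C v : (ZMod p)[X]).coeff 1 = 1 := by
    rw [coeff_add, coeff_X_one, coeff_C]
    simp
  rw [nextCoeff_X_add_C, h1, h2, one_mul]

lemma sum_units {F : Type} [Field F] [Fintype F] [DecidableEq F] (f : F → ℂ) :
    ∑ v : F, (if v = 0 then 0 else f v) = ∑ x : Fˣ, f x := by
  have h1 : ∑ v : F, (if v = 0 then 0 else f v) =
      ∑ v ∈ (Finset.univ : Finset F).filter (fun v => v ≠ 0), f v := by
    rw [Finset.sum_filter]
    apply Finset.sum_congr rfl
    intro v _
    by_cases hv : v = 0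
    · rw [if_pos hv, if_neg (not_not.2 hv)]
    · rw [if_neg hv, if_pos hv]
  rw [h1]
  symm
  refine Finset.sum_bij (fun x _ => (x : F)) ?_ ?_ ?_ ?_
  · intro x _
    rw [Finset.mem_filter]
    exact ⟨Finset.mem_univ _, x.ne_zero⟩
  · intro x _ y _ hxy
    exact Units.ext hxy
  · intro v hv
    rw [Finset.mem_filter] at hv
    exact ⟨Units.mk0 v hv.2, Finset.mem_univ _, rfl⟩
  · intro x _
    rfl

end IC1

theorem pr_C1 : StC1 := by
  intro p hp a b
  constructor
  · unfold LS
    rw [Fintype.sum_unique]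
    rw [IC1.mp_zero, IC1.eta_one]
  · unfold LS KS
    have h1 : ∑ c : Fin 1 → ZMod p, eta p a b (mp 1 c) =
        ∑ v : ZMod p, if v = 0 then 0 else ZMod.stdAddChar (-(a * v) - b * v⁻¹) := by
      refine Fintype.sum_equiv (Equiv.funUnique (Fin 1) (ZMod p)) _ _ ?_
      intro c
      rw [IC1.mp_one, IC1.eta_lin]
      rfl
    rw [h1, IC1.sum_units]
    refine Fintype.sum_equiv (Equiv.neg _) _ _ ?_
    intro x
    congr 1
    rw [Equiv.neg_apply, inv_neg]
    push_cast
    ring

end Pool.Agent.Work.MP_122e00_nt.KL
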