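import Pool.Agent.Work.MP_122e00_nt.KL.StmtsB

set_option autoImplicit false

open Polynomial Finset

namespace Pool.Agent.Work.MP_122e00_nt.KL

namespace IC3

theorem natDegree_mp {p : ℕ} [Fact p.Prime] (n : ℕ) (c : Fin n → ZMod p) :
    (mp n c).natDegree = n := by
  unfold mp
  rw [natDegree_add_eq_left_of_degree_lt, natDegree_X_pow]
  rw [degree_X_pow]
  exact degree_sum_fin_lt c

theorem coeff_mp {p : ℕ} [Fact p.Prime] (n : ℕ) (c : Fin n → ZMod p) (i : ℕ) (hi : i < n) :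
    (mp n c).coeff i = c ⟨i, hi⟩ := by
  unfold mp
  rw [coeff_add, coeff_X_pow, if_neg hi.ne, zero_add, finsetSum_coeff,
    sum_eq_single (⟨i, hi⟩ : Fin n)]
  · rw [coeff_C_mul_X_pow, if_pos rfl]
  · intro j _ hj
    rw [coeff_C_mul_X_pow, if_neg]
    intro h
    exact hj (Fin.ext h.symm)
  · intro h
    exact absurd (mem_univ _) h

theorem eta_mp {p : ℕ} [Fact p.Prime] (a b : ZMod p) (n : ℕ) (hn : 3 ≤ n) (c : Fin n → ZMod p) :
    eta p a b (mp n c) = if c ⟨0, by omega⟩ = 0 then 0 else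
      ZMod.stdAddChar (-(a * c ⟨n - 1, by omega⟩) - b * (c ⟨1, by omega⟩ * (c ⟨0, by omega⟩)⁻¹)) := by
  unfold eta
  rw [nextCoeff_of_natDegree_pos (by rw [natDegree_mp]; omega), natDegree_mp,
    coeff_mp n c 0 (by omega), coeff_mp n c 1 (by omega), coeff_mp n c (n - 1) (by omega)]

end IC3

theorem pr_C3 : StC3 := by
  intro p _ a b ha n hn
  have key : ∀ u : ZMod p, LS p (eta p a b) n = ZMod.stdAddChar (-(a * u)) * LS p (eta p a b) n := by
    intro u
    conv_lhs => unfold LS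
    rw [← Equiv.sum_comp (Equiv.addRight (Pi.single (⟨n - 1, by omega⟩ : Fin n) u))]
    unfold LS
    rw [mul_sum]
    refine sum_congr rfl fun c _ => ?_
    rw [IC3.eta_mp a b n hn, IC3.eta_mp a b n hn]
    have h0 : (Equiv.addRight (Pi.single (⟨n - 1, by omega⟩ : Fin n) u)) c ⟨0, by omega⟩ =
        c ⟨0, by omega⟩ := by
      show c ⟨0, by omega⟩ + (Pi.single (⟨n - 1, by omega⟩ : Fin n) u : Fin n → ZMod p) _ = _
      rw [Pi.single_apply, if_neg, add_zero]
      intro h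
      have h' : (0 : ℕ) = n - 1 := congrArg Fin.val h
      omega
    have h1 : (Equiv.addRight (Pi.single (⟨n - 1, by omega⟩ : Fin n) u)) c ⟨1, by omega⟩ =
        c ⟨1, by omega⟩ := by
      show c ⟨1, by omega⟩ + (Pi.single (⟨n - 1, by omega⟩ : Fin n) u : Fin n → ZMod p) _ = _
      rw [Pi.single_apply, if_neg, add_zero]
      intro h
      have h' : (1 : ℕ) = n - 1 := congrArg Fin.val h
      omega
    have h2 : (Equiv.addRight (Pi.single (⟨n - 1, by omega⟩ : Fin n) u)) c ⟨n - 1, by omega⟩ =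
        c ⟨n - 1, by omega⟩ + u := by
      show c ⟨n - 1, by omega⟩ + (Pi.single (⟨n - 1, by omega⟩ : Fin n) u : Fin n → ZMod p) _ = _
      rw [Pi.single_apply, if_pos rfl]
    rw [h0, h1, h2]
    by_cases hc : c ⟨0, by omega⟩ = 0
    · rw [if_pos hc, if_pos hc, mul_zero]
    · rw [if_neg hc, if_neg hc, ← AddChar.map_add_eq_mul]
      congr 1
      ring
  have h := key (-a⁻¹)
  have h1 : -(a * -a⁻¹) = 1 := by
    rw [mul_neg, neg_neg, mul_inv_cancel₀ ha]
  rw [h1] at h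
  by_contra hL
  have h2 : (ZMod.stdAddChar (1 : ZMod p) : ℂ) = 1 := by
    have h3 : (ZMod.stdAddChar (1 : ZMod p) : ℂ) * LS p (eta p a b) n = 1 * LS p (eta p a b) n := by
      rw [one_mul]
      exact h.symm
    exact mul_right_cancel₀ hL h3
  have h3 : (ZMod.stdAddChar (1 : ZMod p) : ℂ) = ZMod.stdAddChar (0 : ZMod p) := by
    rw [h2, AddChar.map_zero_eq_one]
  exact one_ne_zero (ZMod.injective_stdAddChar h3)

end Pool.Agent.Work.MP_122e00_nt.KL
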