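import Pool.Agent.Work.MP_122e00_nt.KL.StmtsB

set_option autoImplicit false

open Filter Topology

namespace Pool.Agent.Work.MP_122e00_nt.KL

theorem pr_Cl : StCl := by
  intro ι _ u hu ε hε T
  have hb : ∀ t : ℕ, (fun i => u i ^ t) ∈ Metric.closedBall (0 : ι → ℂ) 1 := by
    intro t
    rw [mem_closedBall_zero_iff, pi_norm_le_iff_of_nonneg zero_le_one]
    intro i
    rw [norm_pow, hu i, one_pow]
  obtain ⟨a, -, φ, hφ, hlim⟩ :=
    tendsto_subseq_of_bounded (x := fun (t : ℕ) (i : ι) => u i ^ t) Metric.isBounded_closedBall hb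
  have hC := hlim.cauchySeq
  obtain ⟨N, hN⟩ := Metric.cauchySeq_iff.1 hC ε hε
  have hge : T + φ N ≤ φ (N + (T + φ N)) := le_trans (by omega) (hφ.le_apply (x := N + (T + φ N)))
  refine ⟨φ (N + (T + φ N)) - φ N, by omega, fun i => ?_⟩
  have h1 := hN (N + (T + φ N)) (by omega) N le_rfl
  have h2 : dist (u i ^ φ (N + (T + φ N))) (u i ^ φ N) < ε :=
    lt_of_le_of_lt (dist_le_pi_dist (fun i => u i ^ φ (N + (T + φ N))) (fun i => u i ^ φ N) i) h1
  rw [dist_eq_norm] at h2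
  have h3 : u i ^ φ (N + (T + φ N)) - u i ^ φ N =
      u i ^ φ N * (u i ^ (φ (N + (T + φ N)) - φ N) - 1) := by
    rw [mul_sub, ← pow_add, mul_one]
    congr 2
    omega
  rw [h3, norm_mul, norm_pow, hu i, one_pow, one_mul] at h2
  exact h2

end Pool.Agent.Work.MP_122e00_nt.KL
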