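import Pool.Agent.Work.MP_122e00_nt.KL.StmtsA

set_option autoImplicit false

/-! Item Ct (helper70): the count of the zeros of high order. -/

open Polynomial

namespace Pool.Agent.Work.MP_122e00_nt.KL

namespace ICt

lemma count {F : Type} [Field F] (R : F[X]) (hR : R ≠ 0) (l : ℕ) (S : Finset F)
    (hS : ∀ x ∈ S, (X - C x) ^ l ∣ R) : l * S.card ≤ R.natDegree := by
  have hdvd : ∏ x ∈ S, (X - C x) ^ l ∣ R := by
    refine Finset.prod_dvd_of_coprime (fun x _ y _ hxy => ?_) hS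
    exact (isCoprime_X_sub_C_of_isUnit_sub (IsUnit.mk0 _ (sub_ne_zero.2 hxy))).pow
  have h1 := natDegree_le_of_dvd hdvd hR
  have h2 : (∏ x ∈ S, (X - C x) ^ l : F[X]).natDegree = l * S.card := by
    rw [natDegree_prod_of_monic _ _ fun x _ => (monic_X_sub_C x).pow l]
    have h3 : ∀ x ∈ S, ((X - C x) ^ l : F[X]).natDegree = l := fun x _ => by
      rw [natDegree_pow, natDegree_X_sub_C, mul_one]
    rw [Finset.sum_congr rfl h3, Finset.sum_const, smul_eq_mul, mul_comm]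
  rwa [h2] at h1

end ICt

/-- **Ct** -/
theorem pr_Ct (hAx : StAx) : StCt := by
  classical
  intro F _ _ f a c D J l h1 h2 h3 h4 h5 h6 h7 h8 h9 h10
  obtain ⟨R, hR0, hRd, hR⟩ := hAx F f a c D J l h1 h2 h3 h4 h5 h6 h7 h8 h9 h10
  exact lt_of_le_of_lt (ICt.count R hR0 l _ fun x hx => hR x (Finset.mem_filter.1 hx).2) hRd

end Pool.Agent.Work.MP_122e00_nt.KL
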