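import Pool.Agent.Work.MP_122e00_nt.KL.StmtsA

set_option autoImplicit false

/-!
Block KL, item (Dm): dimension count.
-/

open Polynomial

namespace Pool.Agent.Work.MP_122e00_nt.KL

namespace I_Dm

/-- the polynomial with given coefficients -/
noncomputable def E (F : Type) [Field F] (D : ℕ) : (Fin D → F) →ₗ[F] F[X] :=
  (degreeLT F D).subtype ∘ₗ (degreeLTEquiv F D).symm.toLinearMap

theorem E_natDegree (F : Type) [Field F] (D : ℕ) (hD : 1 ≤ D) (c : Fin D → F) :
    (E F D c).natDegree < D := by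
  have h1 : (E F D c).degree < D := mem_degreeLT.1 ((degreeLTEquiv F D).symm c).2
  by_cases h0 : E F D c = 0
  · rw [h0, natDegree_zero]
    omega
  · exact (natDegree_lt_iff_degree_lt h0).2 h1

theorem E_inj (F : Type) [Field F] (D : ℕ) (c : Fin D → F) (h : E F D c = 0) : c = 0 := by
  have h1 : ((degreeLTEquiv F D).symm c : F[X]) = 0 := h
  have h2 : (degreeLTEquiv F D).symm c = 0 := Subtype.ext h1
  exact (LinearEquiv.map_eq_zero_iff _).1 h2

end I_Dm

open I_Dm in
theorem pr_Dm : StDm := by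
  intro F _ m D J l a W1 W2 h1 h2 hD hlt
  -- the polynomial maps
  let P : ℕ → ((Fin J → Fin D → F) × (Fin J → Fin D → F)) →ₗ[F] F[X] := fun k =>
    ∑ j : Fin J, (LinearMap.mulRight F (X ^ (j : ℕ) : F[X])) ∘ₗ
      ((W1 k) ∘ₗ (E F D) ∘ₗ (LinearMap.proj j) ∘ₗ (LinearMap.fst F _ _) +
        a • ((W2 k) ∘ₗ (E F D) ∘ₗ (LinearMap.proj j) ∘ₗ (LinearMap.snd F _ _)))
  have hP : ∀ k u, P k u = ∑ j : Fin J, (W1 k (E F D (u.1 j)) + a • W2 k (E F D (u.2 j))) *
      X ^ (j : ℕ) := by
    intro k u
    simp [P, LinearMap.sum_apply]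
  let L : ((Fin J → Fin D → F) × (Fin J → Fin D → F)) →ₗ[F]
      ((k : Fin l) → Fin (D + k * (m - 1) + J) → F) :=
    LinearMap.pi fun k => LinearMap.pi fun i => (lcoeff F (i : ℕ)) ∘ₗ P k
  have hL : ∀ u (k : Fin l) (i : Fin (D + k * (m - 1) + J)), L u k i = (P k u).coeff i := by
    intro u k i
    simp [L]
  have hrank : Module.finrank F ((k : Fin l) → Fin (D + k * (m - 1) + J) → F) <
      Module.finrank F ((Fin J → Fin D → F) × (Fin J → Fin D → F)) := by
    rw [Module.finrank_prod, Module.finrank_pi_fintype, Module.finrank_pi_fintype]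
    simp only [Module.finrank_fin_fun, Finset.sum_const, Finset.card_univ, Fintype.card_fin,
      smul_eq_mul]
    have e1 : ∑ k : Fin l, (D + k * (m - 1) + J) = l * (D + J) + (m - 1) * (l * (l - 1) / 2) := by
      rw [Fin.sum_univ_eq_sum_range (fun k => D + k * (m - 1) + J) l]
      have e2 : ∀ k ∈ Finset.range l, D + k * (m - 1) + J = (D + J) + (m - 1) * k := by
        intro k _
        ring
      rw [Finset.sum_congr rfl e2, Finset.sum_add_distrib, ← Finset.mul_sum,
        Finset.sum_range_id]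
      simp
    rw [e1]
    calc _ < 2 * J * D := hlt
      _ = J * D + J * D := by ring
  obtain ⟨u, hu, hu0⟩ := Submodule.exists_mem_ne_zero_of_ne_bot
    (LinearMap.ker_ne_bot_of_finrank_lt (f := L) hrank)
  rw [LinearMap.mem_ker] at hu
  refine ⟨fun j => E F D (u.1 j), fun j => E F D (u.2 j), fun j =>
    ⟨E_natDegree F D hD _, E_natDegree F D hD _⟩, ?_, fun k hk => ?_⟩
  · by_contra hcon
    push Not at hcon
    apply hu0
    refine Prod.ext ?_ ?_
    · funext j
      exact E_inj F D _ (hcon j).1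
    · funext j
      exact E_inj F D _ (hcon j).2
  · rw [← hP k u]
    ext i
    rw [coeff_zero]
    by_cases hi : i < D + k * (m - 1) + J
    · have h3 := hL u ⟨k, hk⟩ ⟨i, hi⟩
      rw [hu] at h3
      exact h3.symm
    · rw [hP k u, finsetSum_coeff]
      refine Finset.sum_eq_zero fun j _ => ?_
      have hj := j.2
      rw [coeff_mul_X_pow', if_pos (by omega)]
      apply coeff_eq_zero_of_natDegree_lt
      have d1 := h1 k hk _ (E_natDegree F D hD (u.1 j))
      have d2 := h2 k hk _ (E_natDegree F D hD (u.2 j))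
      have d3 : (W1 k (E F D (u.1 j)) + a • W2 k (E F D (u.2 j))).natDegree <
          D + k * (m - 1) := by
        refine lt_of_le_of_lt (natDegree_add_le _ _) (max_lt d1 ?_)
        exact lt_of_le_of_lt (natDegree_smul_le _ _) d2
      omega

end Pool.Agent.Work.MP_122e00_nt.KL
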