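import Pool.Agent.Work.MP_122e00_nt.KL.StmtsB

/-!
# KL, part B, item Fb: elements with a given minimal polynomial (after `KW/I_LK.lean`)
-/

namespace Pool.Agent.Work.MP_122e00_nt.KL

open Polynomial Finset

namespace IFb

/-- an irreducible polynomial whose degree divides `[F : ZMod p]` has a root in `F` -/
lemma exists_root (p : ℕ) [Fact p.Prime] (E : Type) [Field E] [Fintype E] [Algebra (ZMod p) E]
    (P : (ZMod p)[X]) (hmon : P.Monic) (hirr : Irreducible P)
    (hd : P.natDegree ∣ Module.finrank (ZMod p) E) : ∃ x : E, aeval x P = 0 := by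
  have : Fact (Irreducible P) := ⟨hirr⟩
  have : FiniteDimensional (ZMod p) (AdjoinRoot P) := (AdjoinRoot.powerBasis' hmon).finite
  have : Finite (AdjoinRoot P) := Module.finite_of_finite (ZMod p)
  have : FiniteDimensional (ZMod p) E := Module.Finite.of_finite
  have hfr : Module.finrank (ZMod p) (AdjoinRoot P) = P.natDegree := by
    rw [(AdjoinRoot.powerBasis' hmon).finrank, AdjoinRoot.powerBasis'_dim]
  obtain ⟨f⟩ := FiniteField.nonempty_algHom_of_finrank_dvd (F := ZMod p) (K := AdjoinRoot P)
    (L := E) (by rw [hfr]; exact hd)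
  refine ⟨f (AdjoinRoot.root P), ?_⟩
  rw [aeval_algHom_apply, AdjoinRoot.aeval_eq, AdjoinRoot.mk_self, map_zero]

end IFb

open IFb in
theorem pr_Fb : StFb := by
  classical
  intro p _ E _ _ _ P hmon hirr hd
  obtain ⟨x₀, hx₀⟩ := exists_root p E P hmon hirr hd
  have : FiniteDimensional (ZMod p) E := Module.Finite.of_finite
  have hmin : minpoly (ZMod p) x₀ = P :=
    (minpoly.eq_of_irreducible_of_monic hirr hx₀ hmon).symm
  have hsplit : (P.map (algebraMap (ZMod p) E)).Splits := by
    have h : (minpoly (ZMod p) x₀ |>.map (algebraMap (ZMod p) E)).Splits :=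
      Normal.splits inferInstance x₀
    rwa [hmin] at h
  have hsep : P.Separable := PerfectField.separable_of_irreducible hirr
  have hcard := card_rootSet_eq_natDegree hsep hsplit
  rw [← hcard, Nat.card_eq_fintype_card]
  refine Fintype.card_congr (Equiv.subtypeEquivRight fun x => ?_)
  rw [mem_rootSet]
  constructor
  · intro h
    refine ⟨hmon.ne_zero, ?_⟩
    rw [← h]
    exact minpoly.aeval _ _
  · rintro ⟨_, h⟩
    exact (minpoly.eq_of_irreducible_of_monic hirr h hmon).symm

end Pool.Agent.Work.MP_122e00_nt.KL
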