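import Pool.Agent.Work.MP_122e00_nt.KL.StmtsA

/-!
Block KL, item Hd: `f^(t-k)` divides the Hasse derivative of order `k` of `f^t r`.
-/

open Polynomial

namespace Pool.Agent.Work.MP_122e00_nt.KL

theorem pr_Hd : StHd := by
  intro F _ f r t
  induction t generalizing r with
  | zero =>
    intro k hk
    obtain rfl : k = 0 := by omega
    simp
  | succ t ih =>
    intro k hk
    rcases Nat.lt_or_ge k (t + 1) with h | h
    · rw [pow_succ', mul_assoc, hasseDeriv_mul]
      refine Finset.dvd_sum fun ij hij => ?_
      obtain ⟨i, j⟩ := ij
      rw [Finset.HasAntidiagonal.mem_antidiagonal] at hij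
      simp only at hij ⊢
      rcases Nat.eq_zero_or_pos i with hi | hi
      · subst hi
        rw [hasseDeriv_zero, LinearMap.id_apply]
        have h1 : t + 1 - k = (t - j) + 1 := by omega
        rw [h1, pow_succ']
        exact mul_dvd_mul_left f (ih r j (by omega))
      · exact dvd_mul_of_dvd_right
          ((pow_dvd_pow f (by omega : t + 1 - k ≤ t - j)).trans (ih r j (by omega))) _
    · have h1 : t + 1 - k = 0 := by omega
      rw [h1, pow_zero]
      exact one_dvd _

end Pool.Agent.Work.MP_122e00_nt.KL
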