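import Pool.Agent.Work.MP_122e00_nt.KL.StmtsA

/-!
Item Hi of the block KL: additive Hilbert 90 for finite fields.
-/

set_option autoImplicit false

open Polynomial

namespace Pool.Agent.Work.MP_122e00_nt.KL

namespace IHi

/-- `y ↦ y ^ p - y` as a linear map over `ZMod p` -/
theorem exists_lin (p : ℕ) [Fact p.Prime] (F : Type) [Field F] [Fintype F]
    [Algebra (ZMod p) F] :
    ∃ L : F →ₗ[ZMod p] F, (∀ y, L y = y ^ p - y) ∧
      ∀ y, Algebra.trace (ZMod p) F (L y) = 0 := by
  have : Module.Finite (ZMod p) F := Module.Finite.of_finite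
  have hq : Fintype.card (ZMod p) = p := ZMod.card p
  refine ⟨(FiniteField.frobeniusAlgEquivOfAlgebraic (ZMod p) F).toLinearMap - LinearMap.id,
    fun y => ?_, fun y => ?_⟩
  · simp [hq]
  · have h1 : Algebra.trace (ZMod p) F (FiniteField.frobeniusAlgEquivOfAlgebraic (ZMod p) F y)
        = Algebra.trace (ZMod p) F y :=
      Algebra.trace_eq_of_algEquiv (FiniteField.frobeniusAlgEquivOfAlgebraic (ZMod p) F) y
    rw [LinearMap.sub_apply, map_sub]
    simp only [LinearMap.id_coe, id_eq]
    rw [sub_eq_zero]
    exact h1

open scoped Classical in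
/-- the kernel has `p` elements -/
theorem card_ker (p : ℕ) [Fact p.Prime] (F : Type) [Field F] [Fintype F]
    [Algebra (ZMod p) F] :
    (Finset.univ.filter fun y : F => y ^ p - y = 0).card = p := by
  have hp : p.Prime := Fact.out
  have : CharP F p := charP_of_injective_algebraMap (algebraMap (ZMod p) F).injective p
  apply le_antisymm
  · -- roots of X^p - X
    have hne : (X ^ p - X : F[X]) ≠ 0 := FiniteField.X_pow_card_sub_X_ne_zero F hp.one_lt
    have hdeg : (X ^ p - X : F[X]).natDegree = p :=
      FiniteField.X_pow_card_sub_X_natDegree_eq F hp.one_lt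
    calc (Finset.univ.filter fun y : F => y ^ p - y = 0).card
        ≤ (X ^ p - X : F[X]).roots.toFinset.card := by
          apply Finset.card_le_card
          intro y hy
          rw [Multiset.mem_toFinset, mem_roots hne, IsRoot.def]
          simpa using (Finset.mem_filter.mp hy).2
      _ ≤ Multiset.card (X ^ p - X : F[X]).roots := Multiset.toFinset_card_le _
      _ ≤ (X ^ p - X : F[X]).natDegree := card_roots' _
      _ = p := hdeg
  · calc p = (Finset.univ : Finset (ZMod p)).card := by rw [Finset.card_univ, ZMod.card]
      _ = ((Finset.univ : Finset (ZMod p)).image (algebraMap (ZMod p) F)).card :=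
          (Finset.card_image_of_injective _ (algebraMap (ZMod p) F).injective).symm
      _ ≤ (Finset.univ.filter fun y : F => y ^ p - y = 0).card := by
          apply Finset.card_le_card
          intro y hy
          obtain ⟨a, -, rfl⟩ := Finset.mem_image.mp hy
          rw [Finset.mem_filter]
          refine ⟨Finset.mem_univ _, ?_⟩
          rw [← map_pow, ZMod.pow_card, sub_self]

end IHi

theorem pr_Hi : StHi := by
  intro p _ F _ _ _ u
  classical
  have hp : p.Prime := Fact.out
  have : Module.Finite (ZMod p) F := Module.Finite.of_finite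
  obtain ⟨L, hL, htr⟩ := IHi.exists_lin p F
  have hker := IHi.card_ker p F
  -- dimension of the kernel
  have hfk : Module.finrank (ZMod p) (LinearMap.ker L) = 1 := by
    have h1 : Nat.card (LinearMap.ker L) = p := by
      refine Eq.trans ?_ hker
      rw [← Fintype.card_coe, ← Nat.card_eq_fintype_card]
      apply Nat.card_congr
      apply Equiv.subtypeEquivRight
      intro y
      rw [Finset.mem_filter, LinearMap.mem_ker, hL]
      simp
    have h2 : Nat.card (LinearMap.ker L)
        = Nat.card (ZMod p) ^ Module.finrank (ZMod p) (LinearMap.ker L) :=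
      Module.natCard_eq_pow_finrank
    rw [h1, Nat.card_zmod] at h2
    have h3 : p ^ 1 = p ^ Module.finrank (ZMod p) (LinearMap.ker L) := by rw [pow_one]; exact h2
    exact (Nat.pow_right_injective hp.two_le h3).symm
  have hrange : LinearMap.range L = LinearMap.ker (Algebra.trace (ZMod p) F) := by
    have hle : LinearMap.range L ≤ LinearMap.ker (Algebra.trace (ZMod p) F) := by
      rintro x ⟨y, rfl⟩
      exact htr y
    apply Submodule.eq_of_le_of_finrank_eq hle
    have h1 := LinearMap.finrank_range_add_finrank_ker L
    have h2 := LinearMap.finrank_range_add_finrank_ker (Algebra.trace (ZMod p) F)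
    have h3 : Module.finrank (ZMod p) (LinearMap.range (Algebra.trace (ZMod p) F)) = 1 := by
      rw [LinearMap.range_eq_top.mpr (Algebra.trace_surjective (ZMod p) F), finrank_top,
        Module.finrank_self]
    omega
  by_cases hu : Algebra.trace (ZMod p) F u = 0
  · rw [if_pos hu]
    have hmem : u ∈ LinearMap.range L := by rw [hrange]; exact hu
    obtain ⟨y0, hy0⟩ := hmem
    refine Eq.trans ?_ hker
    symm
    apply Finset.card_bij (fun y _ => y + y0)
    · intro y hy
      rw [Finset.mem_filter] at hy ⊢
      refine ⟨Finset.mem_univ _, ?_⟩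
      rw [← hL, map_add, hy0, hL, hy.2, zero_add]
    · intro a _ b _ hab
      exact add_right_cancel hab
    · intro y hy
      rw [Finset.mem_filter] at hy
      refine ⟨y - y0, ?_, sub_add_cancel _ _⟩
      rw [Finset.mem_filter]
      refine ⟨Finset.mem_univ _, ?_⟩
      rw [← hL, map_sub, hy0, hL, hy.2, sub_self]
  · rw [if_neg hu, Finset.card_eq_zero, Finset.filter_eq_empty_iff]
    intro y _ hy
    apply hu
    rw [← hy, ← hL]
    exact htr y

end Pool.Agent.Work.MP_122e00_nt.KL
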