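import Pool.Agent.Work.MP_122e00_nt.KL.StmtsA

set_option autoImplicit false

/-! Item Hq: Hasse derivatives commute with `X ^ (j q)`. -/

namespace Pool.Agent.Work.MP_122e00_nt.KL

open Polynomial Finset

namespace IHq

theorem dvd_choose (p n j i : ℕ) (hp : p.Prime) (hi : 0 < i) (hq : i < p ^ n) :
    p ∣ (j * p ^ n).choose i := by
  rcases Nat.eq_zero_or_pos (j * p ^ n) with h0 | h0
  · rw [h0, Nat.choose_eq_zero_of_lt hi]
    exact dvd_zero p
  · obtain ⟨N, hN⟩ : ∃ N, j * p ^ n = N + 1 := ⟨j * p ^ n - 1, by omega⟩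
    obtain ⟨i', rfl⟩ : ∃ i', i = i' + 1 := ⟨i - 1, by omega⟩
    by_contra hc
    have h1 := Nat.add_one_mul_choose_eq N i'
    have h2 : p ^ n ∣ (j * p ^ n).choose (i' + 1) * (i' + 1) := by
      rw [hN]
      have h3 : p ^ n ∣ N + 1 := by
        rw [← hN]
        exact dvd_mul_left _ _
      have h4 : (N + 1).choose (i' + 1) * (i' + 1) = (N + 1) * N.choose i' := h1.symm
      rw [h4]
      exact Dvd.dvd.mul_right h3 _
    have h5 : (p ^ n).Coprime ((j * p ^ n).choose (i' + 1)) :=
      Nat.Coprime.pow_left n ((Nat.Prime.coprime_iff_not_dvd hp).2 hc)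
    have h6 := h5.dvd_of_dvd_mul_left h2
    have := Nat.le_of_dvd (by omega) h6
    omega

end IHq

open IHq in
theorem pr_Hq : StHq := by
  intro E _ _ g k j hk
  obtain ⟨p, hp⟩ := CharP.exists E
  obtain ⟨n, hpr, hcard⟩ := FiniteField.card E p
  rw [hasseDeriv_mul, Finset.sum_eq_single (k, 0)]
  · rw [hasseDeriv_zero']
  · rintro ⟨l, i⟩ hil hne
    rw [HasAntidiagonal.mem_antidiagonal] at hil
    simp only at hil ⊢
    have hi : 0 < i := by
      rcases Nat.eq_zero_or_pos i with h | h
      · exfalso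
        apply hne
        rw [h] at hil ⊢
        rw [add_zero] at hil
        rw [hil]
      · exact h
    have hd := dvd_choose p n j i hpr hi (by rw [← hcard]; omega)
    have h1 : ((((j * Fintype.card E).choose i : ℕ)) : E) = 0 := by
      rw [CharP.cast_eq_zero_iff E p, hcard]
      exact hd
    rw [X_pow_eq_monomial, hasseDeriv_monomial, h1, zero_mul, map_zero, mul_zero]
  · intro h
    exact absurd (by rw [HasAntidiagonal.mem_antidiagonal]; simp) h

end Pool.Agent.Work.MP_122e00_nt.KL
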