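import Pool.Agent.Work.MP_122e00_nt.KL.StmtsA

/-!
# KL, item Hw (helper32): the linear maps `W` with `E^k(f^t r) = f^(t-k) W(r)`
-/

open Polynomial

namespace Pool.Agent.Work.MP_122e00_nt.KL

namespace IHw

/-- the quotient map -/
noncomputable def quo (hHd : StHd) (F : Type) [Field F] (f : F[X]) (t k : ℕ) (hf : f ≠ 0)
    (hkt : k ≤ t) : F[X] →ₗ[F] F[X] where
  toFun r := hasseDeriv k (f ^ t * r) / f ^ (t - k)
  map_add' r s := by
    have h0 : f ^ (t - k) ≠ 0 := pow_ne_zero _ hf
    apply mul_left_cancel₀ h0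
    rw [EuclideanDomain.mul_div_cancel' h0 (hHd F f (r + s) t k hkt), mul_add (f ^ (t - k)),
      EuclideanDomain.mul_div_cancel' h0 (hHd F f r t k hkt),
      EuclideanDomain.mul_div_cancel' h0 (hHd F f s t k hkt), mul_add, map_add]
  map_smul' c r := by
    have h0 : f ^ (t - k) ≠ 0 := pow_ne_zero _ hf
    apply mul_left_cancel₀ h0
    rw [EuclideanDomain.mul_div_cancel' h0 (hHd F f (c • r) t k hkt), RingHom.id_apply,
      mul_smul_comm, mul_smul_comm, EuclideanDomain.mul_div_cancel' h0 (hHd F f r t k hkt),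
      map_smul]

theorem quo_spec (hHd : StHd) (F : Type) [Field F] (f : F[X]) (t k : ℕ) (hf : f ≠ 0)
    (hkt : k ≤ t) (r : F[X]) :
    hasseDeriv k (f ^ t * r) = f ^ (t - k) * quo hHd F f t k hf hkt r :=
  (EuclideanDomain.mul_div_cancel' (pow_ne_zero _ hf) (hHd F f r t k hkt)).symm

end IHw

/-- the linear maps `W` with `E^k(f^t r) = f^(t-k) W(r)` -/
theorem pr_Hw (hHd : StHd) : StHw := by
  intro F _ f t k hm hkt
  have hf : f ≠ 0 := by
    rintro rfl
    simp at hm
  refine ⟨IHw.quo hHd F f t k hf hkt, IHw.quo_spec hHd F f t k hf hkt, ?_⟩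
  intro r D hD
  have hs := IHw.quo_spec hHd F f t k hf hkt r
  generalize IHw.quo hHd F f t k hf hkt r = w at hs ⊢
  by_cases hw : w = 0
  · subst hw
    simp only [natDegree_zero]
    omega
  · have h1 := congrArg natDegree hs
    rw [natDegree_mul (pow_ne_zero _ hf) hw, natDegree_pow] at h1
    have h2 := natDegree_hasseDeriv_le (f ^ t * r) k
    have h3 : (f ^ t * r).natDegree ≤ t * f.natDegree + r.natDegree := by
      refine natDegree_mul_le.trans ?_
      rw [natDegree_pow]
    obtain ⟨u, rfl⟩ := Nat.exists_eq_add_of_le hkt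
    obtain ⟨m, hm'⟩ := Nat.exists_eq_add_of_le hm
    rw [hm'] at h1 h3 ⊢
    have h4 : (k + u) * (1 + m) = k * m + k + u * (1 + m) := by ring
    have h5 : k + u - k = u := by omega
    have h6 : 1 + m - 1 = m := by omega
    rw [h4] at h3
    rw [h5] at h1
    rw [h6]
    omega

end Pool.Agent.Work.MP_122e00_nt.KL
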