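import Pool.Agent.Work.MP_122e00_nt.KL.StmtsB

/-!
# Block KL, item La
-/

open Polynomial Finset

namespace Pool.Agent.Work.MP_122e00_nt.KL

open scoped Classical in
theorem pr_La (h1 : StMp) (h2 : StTm) (h3 : StFb) : StLa := by
  intro p _ F _ _ _ a b
  have hn0 : 0 < Module.finrank (ZMod p) F := Module.finrank_pos
  generalize hn : Module.finrank (ZMod p) F = n at hn0 ⊢
  have hint : ∀ x : F, IsIntegral (ZMod p) x := fun x => Algebra.IsIntegral.isIntegral x
  obtain ⟨f, hf⟩ : ∃ f : F → ℂ, ∀ x, f x =
      eta p a b (minpoly (ZMod p) x) ^ (n / (minpoly (ZMod p) x).natDegree) := ⟨_, fun _ => rfl⟩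
  have hdvd : ∀ x : F, (minpoly (ZMod p) x).natDegree ∣ n := by
    intro x
    by_cases hx : x = 0
    · rw [hx, minpoly.zero, natDegree_X]
      exact one_dvd n
    · rw [← hn]
      exact (h2 p F a b x hx).1
  have hSn : Sn p F a b = ∑ x : F, f x := by
    unfold Sn
    refine Finset.sum_congr rfl fun x _ => ?_
    by_cases hx : x = 0
    · rw [if_pos hx, hf, hx, minpoly.zero, natDegree_X, Nat.div_one]
      have he : eta p a b X = 0 := by
        unfold eta
        rw [if_pos coeff_X_zero]
      rw [he, zero_pow hn0.ne']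
    · rw [if_neg hx, (h2 p F a b x hx).2, hf, hn]
  have hL : Lam p (eta p a b) n = ∑ d ∈ n.divisors, ∑ c : Fin d → ZMod p, ∑ x : F,
      if minpoly (ZMod p) x = mp d c then f x else 0 := by
    unfold Lam
    refine Finset.sum_congr rfl fun d hd => Finset.sum_congr rfl fun c _ => ?_
    have hdn : d ∣ n := Nat.dvd_of_mem_divisors hd
    obtain ⟨hm, hdeg, hco⟩ := (h1 p d).1 c
    by_cases hirr : Irreducible (mp d c)
    · rw [if_pos hirr, ← Finset.sum_filter]
      have hval : ∀ x ∈ univ.filter (fun x : F => minpoly (ZMod p) x = mp d c),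
          f x = eta p a b (mp d c) ^ (n / d) := by
        intro x hx
        have hx' := (Finset.mem_filter.1 hx).2
        rw [hf, hx', hdeg]
      rw [Finset.sum_congr rfl hval, Finset.sum_const, nsmul_eq_mul]
      have hc := h3 p F (mp d c) hm hirr (by rw [hdeg, hn]; exact hdn)
      rw [hdeg, Nat.card_eq_fintype_card, Fintype.card_subtype] at hc
      rw [hc]
    · rw [if_neg hirr]
      symm
      refine Finset.sum_eq_zero fun x _ => if_neg fun h => hirr ?_
      rw [← h]
      exact minpoly.irreducible (hint x)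
  rw [hSn, hL]
  have hx : ∀ x : F, f x = ∑ d ∈ n.divisors, ∑ c : Fin d → ZMod p,
      if minpoly (ZMod p) x = mp d c then f x else 0 := by
    intro x
    have hmp := (h1 p (minpoly (ZMod p) x).natDegree).2 (minpoly (ZMod p) x)
      (minpoly.monic (hint x)) rfl
    symm
    rw [Finset.sum_eq_single (minpoly (ZMod p) x).natDegree,
      Finset.sum_eq_single (fun i : Fin (minpoly (ZMod p) x).natDegree =>
        (minpoly (ZMod p) x).coeff i), if_pos hmp.symm]
    · intro c _ hc
      refine if_neg fun h => hc ?_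
      funext i
      have h4 := ((h1 p _).1 c).2.2 i
      rw [← h] at h4
      exact h4.symm
    · intro h
      exact absurd (Finset.mem_univ _) h
    · intro d _ hd
      refine Finset.sum_eq_zero fun c _ => if_neg fun h => hd ?_
      have h4 := ((h1 p d).1 c).2.1
      rw [← h] at h4
      exact h4.symm
    · intro h
      exact absurd (Nat.mem_divisors.2 ⟨hdvd x, hn0.ne'⟩) h
  rw [Finset.sum_congr rfl fun x _ => hx x, Finset.sum_comm]
  refine Finset.sum_congr rfl fun d _ => ?_
  rw [Finset.sum_comm]

end Pool.Agent.Work.MP_122e00_nt.KL
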