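import Pool.Agent.Work.MP_122e00_nt.KL.StmtsB

set_option autoImplicit false

open Polynomial Finset

namespace Pool.Agent.Work.MP_122e00_nt.KL

namespace INe

/-- Pairs `(d, k)` with `k d ≤ n` and pairs `(j, d)` with `d ∣ j ≤ n`. -/
theorem comb (n : ℕ) (f : ℕ → ℕ → ℕ → ℂ) :
    ∑ d ∈ Icc 1 n, ∑ k ∈ Icc 1 n, (if k * d ≤ n then f d k (k * d) else 0) =
      ∑ j ∈ Icc 1 n, ∑ d ∈ j.divisors, f d (j / d) j := by
  rw [← Finset.sum_product', ← Finset.sum_filter
    (p := fun x : ℕ × ℕ => x.2 * x.1 ≤ n) (f := fun x : ℕ × ℕ => f x.1 x.2 (x.2 * x.1)),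
    Finset.sum_sigma']
  refine Finset.sum_bij' (fun x _ => (⟨x.2 * x.1, x.1⟩ : Σ _ : ℕ, ℕ))
    (fun y _ => ((y.2, y.1 / y.2) : ℕ × ℕ)) ?_ ?_ ?_ ?_ ?_
  · rintro ⟨d, k⟩ hx
    simp only [mem_filter, mem_product, mem_Icc, mem_sigma, Nat.mem_divisors] at hx ⊢
    obtain ⟨⟨⟨hd1, hd2⟩, hk1, hk2⟩, hkd⟩ := hx
    have hpos : 0 < k * d := Nat.mul_pos hk1 hd1
    exact ⟨⟨hpos, hkd⟩, Dvd.intro_left k rfl, hpos.ne'⟩
  · rintro ⟨j, d⟩ hy
    simp only [mem_filter, mem_product, mem_Icc, mem_sigma, Nat.mem_divisors] at hy ⊢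
    obtain ⟨⟨hj1, hj2⟩, hdj, hj0⟩ := hy
    have hdpos : 0 < d := Nat.pos_of_dvd_of_pos hdj hj1
    have hdle : d ≤ j := Nat.le_of_dvd hj1 hdj
    have hq : 0 < j / d := Nat.div_pos hdle hdpos
    have hqle : j / d ≤ j := Nat.div_le_self j d
    refine ⟨⟨⟨hdpos, hdle.trans hj2⟩, hq, hqle.trans hj2⟩, ?_⟩
    rw [Nat.div_mul_cancel hdj]
    exact hj2
  · rintro ⟨d, k⟩ hx
    simp only [mem_filter, mem_product, mem_Icc] at hx
    have hd : 0 < d := hx.1.1.1
    simp only [Nat.mul_div_cancel _ hd]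
  · rintro ⟨j, d⟩ hy
    simp only [mem_sigma, mem_Icc, Nat.mem_divisors] at hy
    simp only [Nat.div_mul_cancel hy.2.1]
  · rintro ⟨d, k⟩ hx
    simp only [mem_filter, mem_product, mem_Icc] at hx
    have hd : 0 < d := hx.1.1.1
    simp only [Nat.mul_div_cancel _ hd]

end INe

open INe in
open scoped Classical in
/-- **Newton's identity.** -/
theorem pr_Ne (h1 : StMp) (h2 : StDg) (h3 : StSh) : StNe := by
  intro p _ η hη1 hηm n hn
  -- the function of the pair (d, k)
  set A : ℕ → ℕ → ℂ := fun d k => ∑ c : Fin d → ZMod p,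
    if Irreducible (mp d c) then (d : ℂ) * η (mp d c) ^ k else 0 with hA
  have hL : (n : ℂ) * LS p η n =
      ∑ d ∈ Icc 1 n, ∑ k ∈ Icc 1 n, (if k * d ≤ n then A d k * LS p η (n - k * d) else 0) := by
    have hstep1 : (n : ℂ) * LS p η n = ∑ c : Fin n → ZMod p, ∑ d ∈ Icc 1 n, ∑ k ∈ Icc 1 n,
        ∑ c' : Fin d → ZMod p,
          if Irreducible (mp d c') ∧ mp d c' ^ k ∣ mp n c then (d : ℂ) * η (mp n c) else 0 := by
      rw [LS, Finset.mul_sum]
      refine Finset.sum_congr rfl fun c _ => ?_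
      have hc := (h1 p n).1 c
      have hdg := h2 p (mp n c) n hc.1 hc.2.1
      have hdg' : (n : ℂ) = ∑ d ∈ Icc 1 n, (d : ℂ) * ∑ k ∈ Icc 1 n,
          ((((univ : Finset (Fin d → ZMod p)).filter
            (fun c' => Irreducible (mp d c') ∧ mp d c' ^ k ∣ mp n c)).card : ℕ) : ℂ) := by
        exact_mod_cast hdg
      conv_lhs => rw [hdg']
      rw [Finset.sum_mul]
      refine Finset.sum_congr rfl fun d _ => ?_
      rw [Finset.mul_sum, Finset.sum_mul]
      refine Finset.sum_congr rfl fun k _ => ?_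
      rw [← Finset.sum_filter, Finset.sum_const, nsmul_eq_mul]
      ring
    rw [hstep1, Finset.sum_comm]
    refine Finset.sum_congr rfl fun d _ => ?_
    rw [Finset.sum_comm]
    refine Finset.sum_congr rfl fun k _ => ?_
    rw [Finset.sum_comm]
    have hinner : ∀ c' : Fin d → ZMod p, (∑ c : Fin n → ZMod p,
        if Irreducible (mp d c') ∧ mp d c' ^ k ∣ mp n c then (d : ℂ) * η (mp n c) else 0) =
        if k * d ≤ n then (if Irreducible (mp d c') then (d : ℂ) * η (mp d c') ^ k else 0) *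
          LS p η (n - k * d) else 0 := by
      intro c'
      have hc' := (h1 p d).1 c'
      have hsh := h3 p η hη1 hηm (mp d c') d k n hc'.1 hc'.2.1
      by_cases hirr : Irreducible (mp d c')
      · simp only [hirr, true_and, if_true]
        rw [← Finset.sum_filter, ← Finset.mul_sum]
        by_cases hkd : k * d ≤ n
        · rw [if_pos hkd, hsh.1 hkd]
          ring
        · rw [if_neg hkd]
          have : (univ : Finset (Fin n → ZMod p)).filter (fun c => mp d c' ^ k ∣ mp n c) = ∅ := by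
            rw [Finset.filter_eq_empty_iff]
            intro c _
            exact hsh.2 (by omega) c
          rw [this, Finset.sum_empty, mul_zero]
      · simp [hirr]
    rw [Finset.sum_congr rfl fun c' _ => hinner c']
    by_cases hkd : k * d ≤ n
    · simp only [if_pos hkd]
      rw [hA, Finset.sum_mul]
    · simp only [if_neg hkd, Finset.sum_const_zero]
  rw [hL, comb n (fun d k j => A d k * LS p η (n - j))]
  refine Finset.sum_congr rfl fun j _ => ?_
  rw [Lam, Finset.sum_mul]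

end Pool.Agent.Work.MP_122e00_nt.KL
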