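import Pool.Agent.Work.MP_122e00_nt.KL.StmtsB

set_option autoImplicit false

/-!
# Item Po: a bound for power sums bounds every term
-/

open Polynomial Finset

namespace Pool.Agent.Work.MP_122e00_nt.KL

namespace IPo

open scoped Classical in
/-- The normalised number. -/
noncomputable def nz (z : ℂ) : ℂ := if z = 0 then 1 else z / (‖z‖ : ℂ)

theorem nz_norm (z : ℂ) : ‖nz z‖ = 1 := by
  unfold nz
  split_ifs with h
  · exact norm_one
  · rw [norm_div, Complex.norm_real, norm_norm]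
    exact div_self (norm_ne_zero_iff.2 h)

theorem pow_eq (z : ℂ) (t : ℕ) (ht : 1 ≤ t) : z ^ t = ((‖z‖ ^ t : ℝ) : ℂ) * nz z ^ t := by
  unfold nz
  split_ifs with h
  · rw [h, norm_zero, zero_pow (by omega), zero_pow (by omega)]
    simp
  · have h' : (‖z‖ : ℂ) ≠ 0 := by exact_mod_cast norm_ne_zero_iff.2 h
    rw [div_pow]
    push_cast
    field_simp

theorem re_ge (z : ℂ) (t : ℕ) (ht : 1 ≤ t) (h : ‖nz z ^ t - 1‖ < 1 / 2) :
    ‖z‖ ^ t / 2 ≤ (z ^ t).re := by
  rw [pow_eq z t ht, Complex.re_ofReal_mul]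
  have h1 : |(nz z ^ t - 1).re| ≤ ‖nz z ^ t - 1‖ := Complex.abs_re_le_norm _
  have h2 : (nz z ^ t - 1).re = (nz z ^ t).re - 1 := by simp
  rw [h2] at h1
  have h3 : 1 / 2 ≤ (nz z ^ t).re := by
    have := (abs_le.1 h1).1
    linarith
  have h4 : (0 : ℝ) ≤ ‖z‖ ^ t := pow_nonneg (norm_nonneg _) _
  nlinarith

end IPo

open IPo in
theorem pr_Po (h : StCl) : StPo := by
  intro ι _ ω B r T hr hb i0
  by_contra hlt
  rw [not_le] at hlt
  have hq : 1 < ‖ω i0‖ / r := (one_lt_div hr).2 hlt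
  obtain ⟨N, hN⟩ := pow_unbounded_of_one_lt (2 * B) hq
  obtain ⟨t, ht, hu⟩ := h ι (fun i => nz (ω i)) (fun i => nz_norm (ω i)) (1 / 2) (by norm_num)
    (max (max T 1) N)
  have hT : T ≤ t := le_trans (le_trans (le_max_left _ _) (le_max_left _ _)) ht
  have h1 : 1 ≤ t := le_trans (le_trans (le_max_right _ _) (le_max_left _ _)) ht
  have hNt : N ≤ t := le_trans (le_max_right _ _) ht
  have hbig : 2 * B < (‖ω i0‖ / r) ^ t := hN.trans_le (pow_le_pow_right₀ hq.le hNt)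
  have hrt : 0 < r ^ t := pow_pos hr t
  rw [div_pow, lt_div_iff₀ hrt] at hbig
  have hre : ‖ω i0‖ ^ t / 2 ≤ (∑ i, ω i ^ t).re := by
    rw [Complex.re_sum]
    refine le_trans (re_ge (ω i0) t h1 (hu i0)) ?_
    refine Finset.single_le_sum (f := fun i => (ω i ^ t).re) (fun i _ => ?_) (mem_univ i0)
    refine le_trans ?_ (re_ge (ω i) t h1 (hu i))
    positivity
  have h2 := Complex.re_le_norm (∑ i, ω i ^ t)
  have h3 := hb t hT
  linarith

end Pool.Agent.Work.MP_122e00_nt.KL
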