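import Pool.Agent.Work.MP_122e00_nt.KL.StmtsA

/-!
Block KL, item Qd: the number of solutions of a quadratic equation.
-/

namespace Pool.Agent.Work.MP_122e00_nt.KL

namespace IQd

theorem key {F : Type} [Field F] (a b t x : F) :
    (2 * a * x - t) ^ 2 = t ^ 2 - 4 * a * b + 4 * a * (a * x ^ 2 - t * x + b) := by
  ring

theorem card_eq {F : Type} [Field F] [Fintype F] [DecidableEq F] (a b t : F) (h2 : ringChar F ≠ 2)
    (ha : a ≠ 0) (hb : b ≠ 0) (s : Finset F)
    (hs : ∀ x : F, x ∈ s ↔ (x ≠ 0 ∧ a * x ^ 2 - t * x + b = 0)) :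
    ((s.card : ℕ) : ℤ) = 1 + quadraticChar F (t ^ 2 - 4 * a * b) := by
  have h2' : (2 : F) ≠ 0 := Ring.two_ne_zero h2
  have h4 : (4 : F) ≠ 0 := by
    have : (4 : F) = 2 * 2 := by norm_num
    rw [this]
    exact mul_ne_zero h2' h2'
  have h2a : 2 * a ≠ 0 := mul_ne_zero h2' ha
  rw [add_comm, ← quadraticChar_card_sqrts h2]
  congr 1
  refine Finset.card_bij (fun x _ => 2 * a * x - t) ?_ ?_ ?_
  · intro x hx
    rw [Set.mem_toFinset]
    show (2 * a * x - t) ^ 2 = t ^ 2 - 4 * a * b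
    rw [key, ((hs x).1 hx).2, mul_zero, add_zero]
  · intro x _ y _ hxy
    have h : 2 * a * x = 2 * a * y := by
      linear_combination hxy
    exact mul_left_cancel₀ h2a h
  · intro y hy
    rw [Set.mem_toFinset] at hy
    have hy' : y ^ 2 = t ^ 2 - 4 * a * b := hy
    have hx : 2 * a * ((y + t) / (2 * a)) - t = y := by
      field_simp
      ring
    have hx2 : a * ((y + t) / (2 * a)) ^ 2 - t * ((y + t) / (2 * a)) + b = 0 := by
      have h := key a b t ((y + t) / (2 * a))
      rw [hx, hy'] at h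
      have h5 : 4 * a * (a * ((y + t) / (2 * a)) ^ 2 - t * ((y + t) / (2 * a)) + b) = 0 := by
        linear_combination -h
      rcases mul_eq_zero.1 h5 with h6 | h6
      · exact absurd h6 (mul_ne_zero h4 ha)
      · exact h6
    refine ⟨(y + t) / (2 * a), (hs _).2 ⟨fun h0 => ?_, hx2⟩, hx⟩
    rw [h0] at hx2
    apply hb
    linear_combination hx2

end IQd

open scoped Classical in
theorem pr_Qd : StQd := by
  intro F _ _ a b t h2 ha hb
  exact IQd.card_eq a b t h2 ha hb _ fun x => by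
    rw [Finset.mem_filter]
    exact ⟨fun h => h.2, fun h => ⟨Finset.mem_univ _, h⟩⟩

end Pool.Agent.Work.MP_122e00_nt.KL
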