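import Pool.Agent.Work.MP_122e00_nt.KL.StmtsB

set_option autoImplicit false

/-!
# MP_122e00_nt, block KL, item Re: the power sums from the recurrence
-/

open Finset

namespace Pool.Agent.Work.MP_122e00_nt.KL

namespace IRe

theorem step (c L : ℕ → ℂ) (K q : ℂ) (h0 : c 0 = 1) (h1 : c 1 = K) (h2 : c 2 = q)
    (h3 : ∀ n, 3 ≤ n → c n = 0)
    (hN : ∀ n : ℕ, 1 ≤ n → (n : ℂ) * c n = ∑ j ∈ Icc 1 n, L j * c (n - j)) (m : ℕ) :
    L (m + 3) + L (m + 2) * K + L (m + 1) * q = 0 := by
  have h := hN (m + 3) (by omega)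
  rw [h3 (m + 3) (by omega), mul_zero, Finset.sum_Icc_succ_top (by omega : 1 ≤ m + 2 + 1),
    Finset.sum_Icc_succ_top (by omega : 1 ≤ m + 1 + 1), Finset.sum_Icc_succ_top (by omega : 1 ≤ m + 1)] at h
  have hz : ∑ j ∈ Icc 1 m, L j * c (m + 3 - j) = 0 := by
    refine Finset.sum_eq_zero (fun j hj => ?_)
    have := mem_Icc.mp hj
    rw [h3 (m + 3 - j) (by omega), mul_zero]
  have e1 : m + 3 - (m + 1) = 2 := by omega
  have e2 : m + 3 - (m + 1 + 1) = 1 := by omega
  have e3 : m + 3 - (m + 2 + 1) = 0 := by omega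
  rw [hz, e1, e2, e3, h0, h1, h2] at h
  have e4 : L (m + 1 + 1) = L (m + 2) := rfl
  have e5 : L (m + 2 + 1) = L (m + 3) := rfl
  rw [e4, e5] at h
  linear_combination -h

end IRe

open IRe

theorem pr_Re : StRe := by
  intro c L K q α β h0 h1 h2 h3 hN hs hp
  have hL1 : L 1 = K := by
    have h := hN 1 le_rfl
    simp only [Icc_self, sum_singleton, Nat.sub_self, h0, h1] at h
    push_cast at h
    linear_combination -h
  have hL2 : L 2 = 2 * q - K ^ 2 := by
    have h := hN 2 (by omega)
    rw [Finset.sum_Icc_succ_top (by omega : 1 ≤ 1 + 1)] at h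
    simp only [Icc_self, sum_singleton] at h
    have e1 : 2 - 1 = 1 := rfl
    have e2 : 2 - (1 + 1) = 0 := rfl
    rw [e1, e2, h0, h1, h2, hL1] at h
    push_cast at h
    have e4 : L (1 + 1) = L 2 := rfl
    rw [e4] at h
    linear_combination -h
  intro n
  induction n using Nat.strong_induction_on with
  | _ n ih =>
    intro hn
    match n, hn with
    | 1, _ =>
      rw [hL1, pow_one, pow_one, hs, neg_neg]
    | 2, _ =>
      rw [hL2, ← hp]
      have : K = -(α + β) := by rw [hs, neg_neg]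
      rw [this]
      ring
    | m + 3, _ =>
      have h := step c L K q h0 h1 h2 h3 hN m
      rw [ih (m + 2) (by omega) (by omega), ih (m + 1) (by omega) (by omega), ← hp] at h
      have : K = -(α + β) := by rw [hs, neg_neg]
      rw [this] at h
      linear_combination h

end Pool.Agent.Work.MP_122e00_nt.KL
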