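import Pool.Agent.Work.MP_122e00_nt.KL.StmtsA

/-!
Block KL, item Sm: the sum over the multiples of the character.
-/

open Polynomial

namespace Pool.Agent.Work.MP_122e00_nt.KL

namespace ISm

/-- orthogonality -/
theorem orth (p : ℕ) [Fact p.Prime] (y : ZMod p) :
    ∑ t : ZMod p, (ZMod.stdAddChar (t * y) : ℂ) = if y = 0 then (p : ℂ) else 0 := by
  have h := AddChar.sum_mulShift (R := ZMod p) (R' := ℂ) (ψ := ZMod.stdAddChar) y
    (ZMod.isPrimitive_stdAddChar p)
  rw [h, ZMod.card]
  split_ifs <;> simp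

theorem eqn {F : Type} [Field F] {A B x v : F} (hx : x ≠ 0) :
    v = A * x + B * x⁻¹ ↔ A * x ^ 2 - v * x + B = 0 := by
  constructor
  · intro h
    rw [h]
    field_simp
    ring
  · intro h
    have h1 : v * x = A * x ^ 2 + B := by linear_combination -h
    field_simp
    linear_combination h1

end ISm

open ISm in
open scoped Classical in
theorem pr_Sm (hHi : StHi) (hQd : StQd) : StSm := by
  intro p _ F _ _ _ a b hp ha hb
  have hchar : CharP F p := charP_of_injective_algebraMap (algebraMap (ZMod p) F).injective p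
  have hrc : ringChar F ≠ 2 := by
    rw [ringChar.eq F p]
    exact hp
  set A : F := algebraMap (ZMod p) F a with hA
  set B : F := algebraMap (ZMod p) F b with hB
  have hA0 : A ≠ 0 := (map_ne_zero_iff _ (algebraMap (ZMod p) F).injective).2 ha
  have hB0 : B ≠ 0 := (map_ne_zero_iff _ (algebraMap (ZMod p) F).injective).2 hb
  have hS : ∀ t : ZMod p, Sn p F (t * a) (t * b) = ∑ x : F, if x = 0 then (0 : ℂ) else
      (ZMod.stdAddChar (t * Algebra.trace (ZMod p) F (a • x + b • x⁻¹)) : ℂ) := by
    intro t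
    unfold Sn
    refine Finset.sum_congr rfl fun x _ => ?_
    have e : (t * a) • x + (t * b) • x⁻¹ = t • (a • x + b • x⁻¹) := by
      rw [smul_add, mul_smul, mul_smul]
    rw [e, map_smul, smul_eq_mul]
  have hall : ∑ t : ZMod p, Sn p F (t * a) (t * b) =
      ∑ x : F, if x = 0 then (0 : ℂ) else
        if Algebra.trace (ZMod p) F (a • x + b • x⁻¹) = 0 then (p : ℂ) else 0 := by
    rw [Finset.sum_congr rfl fun t _ => hS t, Finset.sum_comm]
    refine Finset.sum_congr rfl fun x _ => ?_
    by_cases hx : x = 0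
    · simp [hx]
    · simp only [if_neg hx]
      exact orth p _
  have hcount : ∑ x : F, (if x = 0 then 0 else
        if Algebra.trace (ZMod p) F (a • x + b • x⁻¹) = 0 then p else 0) =
      ∑ y : F, (Finset.univ.filter fun x : F =>
        x ≠ 0 ∧ A * x ^ 2 - (y ^ p - y) * x + B = 0).card := by
    have h1 : ∀ x : F, (if x = 0 then 0 else
        if Algebra.trace (ZMod p) F (a • x + b • x⁻¹) = 0 then p else 0) =
        ∑ y : F, if (x ≠ 0 ∧ A * x ^ 2 - (y ^ p - y) * x + B = 0) then 1 else 0 := by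
      intro x
      by_cases hx : x = 0
      · rw [if_pos hx]
        symm
        refine Finset.sum_eq_zero fun y _ => if_neg ?_
        rintro ⟨h, -⟩
        exact h hx
      · rw [if_neg hx, ← hHi p F (a • x + b • x⁻¹), Finset.card_filter]
        refine Finset.sum_congr rfl fun y _ => ?_
        have e : (y ^ p - y = a • x + b • x⁻¹) ↔ (x ≠ 0 ∧ A * x ^ 2 - (y ^ p - y) * x + B = 0) := by
          rw [Algebra.smul_def, Algebra.smul_def, eqn hx]
          exact ⟨fun h => ⟨hx, h⟩, fun h => h.2⟩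
        by_cases h : y ^ p - y = a • x + b • x⁻¹
        · rw [if_pos h, if_pos (e.1 h)]
        · rw [if_neg h, if_neg fun h' => h (e.2 h')]
    rw [Finset.sum_congr rfl fun x _ => h1 x, Finset.sum_comm]
    refine Finset.sum_congr rfl fun y _ => ?_
    rw [Finset.card_filter]
  have hquad : ∀ y : F, (((Finset.univ.filter fun x : F =>
        x ≠ 0 ∧ A * x ^ 2 - (y ^ p - y) * x + B = 0).card : ℕ) : ℤ) =
      1 + quadraticChar F ((y ^ p - y) ^ 2 - 4 * algebraMap (ZMod p) F (a * b)) := by
    intro y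
    rw [hQd F A B (y ^ p - y) hrc hA0 hB0, map_mul, ← hA, ← hB, mul_assoc]
  have htot : ∑ t : ZMod p, Sn p F (t * a) (t * b) = (Fintype.card F : ℂ) +
      ((∑ y : F, quadraticChar F ((y ^ p - y) ^ 2 - 4 * algebraMap (ZMod p) F (a * b)) : ℤ) : ℂ) := by
    have h1 : ∑ t : ZMod p, Sn p F (t * a) (t * b) = ((∑ y : F, (Finset.univ.filter fun x : F =>
        x ≠ 0 ∧ A * x ^ 2 - (y ^ p - y) * x + B = 0).card : ℕ) : ℂ) := by
      rw [hall, ← hcount]
      push_cast
      rfl
    have h2 : (((∑ y : F, (Finset.univ.filter fun x : F =>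
        x ≠ 0 ∧ A * x ^ 2 - (y ^ p - y) * x + B = 0).card : ℕ) : ℤ)) = (Fintype.card F : ℤ) +
        ∑ y : F, quadraticChar F ((y ^ p - y) ^ 2 - 4 * algebraMap (ZMod p) F (a * b)) := by
      rw [Nat.cast_sum, Finset.sum_congr rfl fun y _ => hquad y, Finset.sum_add_distrib,
        Finset.sum_const, Finset.card_univ, nsmul_eq_mul, mul_one]
    rw [h1, ← Int.cast_natCast, h2]
    push_cast
    rfl
  have hzero : Sn p F (0 * a) (0 * b) = (Fintype.card F : ℂ) - 1 := by
    rw [hS 0]
    have h1 : ∀ x : F, (if x = 0 then (0 : ℂ) else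
        (ZMod.stdAddChar ((0 : ZMod p) * Algebra.trace (ZMod p) F (a • x + b • x⁻¹)) : ℂ)) =
        1 - if x = 0 then 1 else 0 := by
      intro x
      by_cases hx : x = 0
      · simp [hx]
      · rw [if_neg hx, if_neg hx, zero_mul, AddChar.map_zero_eq_one, sub_zero]
    rw [Finset.sum_congr rfl fun x _ => h1 x, Finset.sum_sub_distrib, Finset.sum_ite_eq',
      if_pos (Finset.mem_univ _), Finset.sum_const, Finset.card_univ, nsmul_eq_mul, mul_one]
  have hsplit := Finset.add_sum_erase (Finset.univ : Finset (ZMod p))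
    (fun t => Sn p F (t * a) (t * b)) (Finset.mem_univ 0)
  rw [hzero, htot] at hsplit
  linear_combination hsplit

end Pool.Agent.Work.MP_122e00_nt.KL
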