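import Pool.Agent.Work.MP_122e00_nt.KL.StmtsA

/-!
Block KL, item Sq: the polynomial `(X^p - X)² - e`.
-/

open Polynomial

namespace Pool.Agent.Work.MP_122e00_nt.KL

theorem pr_Sq : StSq := by
  intro p hp F _ _ e hp2 he
  have hp1 : 1 < p := hp.out.one_lt
  have hp0 : p ≠ 0 := hp.out.ne_zero
  have h2 : (2 : F) ≠ 0 := by
    intro h
    have h3 : ((2 : ℕ) : F) = 0 := by exact_mod_cast h
    rw [CharP.cast_eq_zero_iff F p] at h3
    exact hp2 ((Nat.prime_dvd_prime_iff_eq hp.out Nat.prime_two).1 h3)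
  refine ⟨?_, ?_, ?_⟩
  · rw [natDegree_sub_C, natDegree_pow, FiniteField.X_pow_card_sub_X_natDegree_eq F hp1]
  · apply Separable.squarefree
    rw [separable_def]
    have hd : derivative ((X ^ p - X) ^ 2 - C e : F[X]) = -(C 2 * (X ^ p - X)) := by
      rw [derivative_sub, derivative_C, sub_zero, derivative_pow, derivative_sub, derivative_X_pow,
        derivative_X, CharP.cast_eq_zero F p, C_0, zero_mul, zero_sub]
      have : C ((2 : ℕ) : F) = C (2 : F) := by norm_num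
      rw [this]
      ring
    refine ⟨-C (e⁻¹), -(C (e⁻¹) * C (2⁻¹) * (X ^ p - X)), ?_⟩
    rw [hd]
    have e1 : (C e⁻¹ * C e : F[X]) = 1 := by
      rw [← C_mul, inv_mul_cancel₀ he, C_1]
    have e2 : (C (2⁻¹) * C 2 : F[X]) = 1 := by
      rw [← C_mul, inv_mul_cancel₀ h2, C_1]
    calc -C e⁻¹ * ((X ^ p - X) ^ 2 - C e) + -(C e⁻¹ * C 2⁻¹ * (X ^ p - X)) * -(C 2 * (X ^ p - X))
        = -C e⁻¹ * (X ^ p - X) ^ 2 + C e⁻¹ * C e +
          C e⁻¹ * (C 2⁻¹ * C 2) * (X ^ p - X) ^ 2 := by ring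
      _ = 1 := by
          rw [e1, e2]
          ring
  · rw [coeff_zero_eq_eval_zero]
    simp [hp0, he]

end Pool.Agent.Work.MP_122e00_nt.KL
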