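import Pool.Agent.Work.MP_122e00_nt.KL.StmtsB

/-!
Item Tm of the block KL: the additive character of a trace as a power of the multiplicative function
of the minimal polynomial.
-/

open Polynomial Finset IntermediateField

namespace Pool.Agent.Work.MP_122e00_nt.KL

namespace ITm

/-- The degree of the field above the subfield generated by one element. -/
lemma fin_eq {K F : Type} [Field K] [Field F] [Algebra K F] [FiniteDimensional K F] (x : F) :
    (minpoly K x).natDegree * Module.finrank K⟮x⟯ F = Module.finrank K F := by
  rw [← IntermediateField.adjoin.finrank (IsIntegral.of_finite K x)]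
  exact Module.finrank_mul_finrank K K⟮x⟯ F

lemma pos_deg {K F : Type} [Field K] [Field F] [Algebra K F] [FiniteDimensional K F] (x : F) :
    0 < (minpoly K x).natDegree := minpoly.natDegree_pos (IsIntegral.of_finite K x)

lemma fin_eq' {K F : Type} [Field K] [Field F] [Algebra K F] [FiniteDimensional K F] (x : F) :
    Module.finrank K⟮x⟯ F = Module.finrank K F / (minpoly K x).natDegree := by
  rw [← fin_eq (K := K) x, Nat.mul_div_cancel_left _ (pos_deg x)]

end ITm

open scoped Classical in
/-- Item Tm. -/
theorem pr_Tm (h : StMi) : StTm := by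
  intro p hp F _ _ _ a b x hx
  haveI : FiniteDimensional (ZMod p) F := Module.Finite.of_finite
  obtain ⟨h0, hd, hn⟩ := h (ZMod p) F x hx
  refine ⟨⟨_, (ITm.fin_eq (K := ZMod p) x).symm⟩, ?_⟩
  have e1 := trace_eq_finrank_mul_minpoly_nextCoeff (K := ZMod p) (L := F) x
  have e2 := trace_eq_finrank_mul_minpoly_nextCoeff (K := ZMod p) (L := F) x⁻¹
  rw [ITm.fin_eq'] at e1 e2
  rw [hd, hn] at e2
  set e := Module.finrank (ZMod p) F / (minpoly (ZMod p) x).natDegree with he
  unfold eta
  rw [if_neg h0, ← AddChar.map_nsmul_eq_pow, map_add, map_smul, map_smul, e1, e2, nsmul_eq_mul,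
    smul_eq_mul, smul_eq_mul]
  congr 1
  ring

end Pool.Agent.Work.MP_122e00_nt.KL
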