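import Pool.Agent.Work.MP_122e00_nt.KL.StmtsB

/-!
Item WeilP of the block KL: Weil's bound for the Kloosterman sums modulo a prime.
-/

open Polynomial Finset

namespace Pool.Agent.Work.MP_122e00_nt.KL

namespace IWeilP

/-- The two roots of a quadratic polynomial over the complex numbers. -/
theorem roots (K q : ℂ) : ∃ α β : ℂ, α + β = -K ∧ α * β = q := by
  obtain ⟨s, hs⟩ := IsAlgClosed.exists_pow_nat_eq (K ^ 2 - 4 * q) (n := 2) (by norm_num)
  refine ⟨(-K + s) / 2, (-K - s) / 2, by ring, ?_⟩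
  have : (-K + s) / 2 * ((-K - s) / 2) = (K ^ 2 - s ^ 2) / 4 := by ring
  rw [this, hs]
  ring

/-- The trivial bound. -/
theorem triv (p : ℕ) [Fact p.Prime] (a b : ZMod p) : ‖KS p a b‖ ≤ (p : ℝ) - 1 := by
  unfold KS
  refine (norm_sum_le _ _).trans ?_
  have h1 : ∀ x : (ZMod p)ˣ,
      ‖ZMod.stdAddChar (a * (x : ZMod p) + b * ((x⁻¹ : (ZMod p)ˣ) : ZMod p))‖ = 1 := by
    intro x
    exact AddChar.norm_apply _ _
  rw [Finset.sum_congr rfl (fun x _ => h1 x)]
  rw [Finset.sum_const, Finset.card_univ, ZMod.card_units_eq_totient,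
    Nat.totient_prime Fact.out]
  have hp : 1 ≤ p := (Fact.out : p.Prime).one_lt.le
  rw [nsmul_eq_mul, mul_one, Nat.cast_sub hp, Nat.cast_one]

end IWeilP

theorem pr_WeilP (hBd : StBd) (hEt : StEt) (h1 : StC1) (h2 : StC2) (h3 : StC3) (hNe : StNe)
    (hLa : StLa) (hRe : StRe) (hPo : StPo) : StWeilP := by
  intro p _ a b ha hb
  have hp0 : (0 : ℝ) < p := by exact_mod_cast (Fact.out : p.Prime).pos
  by_cases hp2 : p = 2
  · refine (IWeilP.triv p a b).trans ?_
    have h1' : (1 : ℝ) ≤ √(p : ℝ) := by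
      rw [Real.one_le_sqrt]
      exact_mod_cast (Fact.out : p.Prime).one_lt.le
    have h2' : (p : ℝ) - 1 = 1 := by
      rw [hp2]; norm_num
    linarith
  choose α β hαβ hm using fun t : ZMod p => IWeilP.roots (KS p (t * a) (t * b)) (p : ℂ)
  have key : ∀ t : ZMod p, t ≠ 0 → ∀ n : ℕ, 1 ≤ n →
      Lam p (eta p (t * a) (t * b)) n = -(α t ^ n + β t ^ n) := by
    intro t ht n hn
    have hta : t * a ≠ 0 := mul_ne_zero ht ha
    have htb : t * b ≠ 0 := mul_ne_zero ht hb
    exact hRe (LS p (eta p (t * a) (t * b))) (Lam p (eta p (t * a) (t * b)))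
      (KS p (t * a) (t * b)) p (α t) (β t) (h1 p _ _).1 (h1 p _ _).2 (h2 p _ _ hta htb)
      (fun m hm => h3 p _ _ hta m hm)
      (fun m hm => hNe p _ (hEt p _ _).1 (hEt p _ _).2 m hm) (hαβ t) (hm t) n hn
  obtain ⟨n₀, hn₀⟩ := hBd p a b hp2 ha hb
  have main := hPo (ZMod p ⊕ ZMod p)
    (Sum.elim (fun t => if t = 0 then 0 else α t) (fun t => if t = 0 then 0 else β t))
    (19 * p) (√(p : ℝ)) (max n₀ 1) (Real.sqrt_pos.mpr hp0) (by
      intro n hn
      have hn1 : 1 ≤ n := le_trans (le_max_right _ _) hn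
      have hn2 : n₀ ≤ n := le_trans (le_max_left _ _) hn
      have hn0 : n ≠ 0 := by omega
      have : Finite (GaloisField p n) := by infer_instance
      let _ : Fintype (GaloisField p n) := Fintype.ofFinite _
      have hcard : Fintype.card (GaloisField p n) = p ^ n := by
        rw [← Nat.card_eq_fintype_card]
        exact GaloisField.card p n hn0
      have hfin : Module.finrank (ZMod p) (GaloisField p n) = n := GaloisField.finrank p hn0
      have hb' := hn₀ (GaloisField p n) n hn2 hcard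
      have hs : ∑ t ∈ (Finset.univ : Finset (ZMod p)).erase 0,
          Sn p (GaloisField p n) (t * a) (t * b) =
          - ∑ t ∈ (Finset.univ : Finset (ZMod p)).erase 0, (α t ^ n + β t ^ n) := by
        rw [← Finset.sum_neg_distrib]
        refine Finset.sum_congr rfl fun t ht => ?_
        rw [hLa p (GaloisField p n) (t * a) (t * b), hfin]
        exact key t (Finset.ne_of_mem_erase ht) n hn1
      rw [hs, norm_neg] at hb'
      have hs2 : ∑ i : ZMod p ⊕ ZMod p,
          (Sum.elim (fun t => if t = 0 then 0 else α t) (fun t => if t = 0 then 0 else β t) i :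
            ℂ) ^ n = ∑ t ∈ (Finset.univ : Finset (ZMod p)).erase 0, (α t ^ n + β t ^ n) := by
        rw [Fintype.sum_sum_type, Finset.sum_add_distrib]
        simp only [Sum.elim_inl, Sum.elim_inr]
        congr 1
        · rw [← Finset.sum_erase (s := (Finset.univ : Finset (ZMod p))) (a := 0)]
          · refine Finset.sum_congr rfl fun t ht => ?_
            rw [if_neg (Finset.ne_of_mem_erase ht)]
          · rw [if_pos rfl, zero_pow hn0]
        · rw [← Finset.sum_erase (s := (Finset.univ : Finset (ZMod p))) (a := 0)]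
          · refine Finset.sum_congr rfl fun t ht => ?_
            rw [if_neg (Finset.ne_of_mem_erase ht)]
          · rw [if_pos rfl, zero_pow hn0]
      rw [hs2]
      exact hb')
  have hα : ‖α 1‖ ≤ √(p : ℝ) := by
    have := main (Sum.inl 1)
    simpa using this
  have hβ : ‖β 1‖ ≤ √(p : ℝ) := by
    have := main (Sum.inr 1)
    simpa using this
  have h := hαβ 1
  rw [one_mul, one_mul] at h
  have h' : ‖KS p a b‖ = ‖α 1 + β 1‖ := by rw [h, norm_neg]
  rw [h']
  calc ‖α 1 + β 1‖ ≤ ‖α 1‖ + ‖β 1‖ := norm_add_le _ _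
    _ ≤ 2 * √(p : ℝ) := by linarith

end Pool.Agent.Work.MP_122e00_nt.KL
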