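import Pool.Agent.Work.MP_122e00_nt.KL.Defs

/-!
Block KL, part A (captain helper45): Stepanov's method for the curves `z² = f(y)` over finite
fields, and the sums `∑_t S(t a, t b)` over the extensions of `ZMod p`. The docstring of each
statement is its complete proof; the statements may be used as hypotheses by each other.
`E^k` is the Hasse derivative `Polynomial.hasseDeriv k`, `Q` the cardinality of `F`, `m` the degree
of `f`.
-/

open Polynomial

namespace Pool.Agent.Work.MP_122e00_nt.KL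

/-- (Hd) `f^(t-k)` divides `E^k(f^t r)`.

Proof. By induction on `t` (all `k ≤ t` and all `r`): `k = t` is trivial. If `k < t`, write
`f^t r = f * (f^(t-1) r)`; by `hasseDeriv_mul` `E^k` of it is the sum over `i + j = k` of
`E^i f * E^j (f^(t-1) r)`. For `i = 0` the term is `f * E^k(f^(t-1) r)`, divisible by
`f * f^(t-1-k)` (`k ≤ t - 1`); for `i ≥ 1`, `j ≤ k - 1 ≤ t - 1` and the term is divisible by
`f^(t-1-j)`, and `t - 1 - j ≥ t - k`. -/
def StHd : Prop := ∀ (F : Type) [Field F] (f r : F[X]) (t k : ℕ), k ≤ t →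
  f ^ (t - k) ∣ hasseDeriv k (f ^ t * r)

/-- (Hw) The linear maps `W` with `E^k(f^t r) = f^(t-k) W(r)`.

Proof. `W r` is the quotient in (Hd); `f ≠ 0` (its degree is positive), so it is unique and `W` is
linear (`hasseDeriv k` is linear). Degree: if `r ≠ 0`, `deg E^k(f^t r) ≤ t m + deg r - k`
(`natDegree_hasseDeriv_le`), and if `W r ≠ 0`, `deg (f^(t-k) W r) = (t-k) m + deg (W r)`; so
`deg (W r) ≤ deg r + k m - k = deg r + k (m - 1)`. -/
def StHw : Prop := ∀ (F : Type) [Field F] (f : F[X]) (t k : ℕ), 1 ≤ f.natDegree → k ≤ t →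
  ∃ W : F[X] →ₗ[F] F[X], (∀ r, hasseDeriv k (f ^ t * r) = f ^ (t - k) * W r) ∧
    ∀ (r : F[X]) (D : ℕ), r.natDegree < D → (W r).natDegree < D + k * (f.natDegree - 1)

/-- (Hq) `E^k` is linear over the polynomials in `X^Q`, for `k < Q`.

Proof. By `hasseDeriv_mul` it is enough that `E^i (X^(j Q)) = 0` for `0 < i < Q`; its coefficient is
`choose (j Q) i`, and `(1 + T)^(j Q) = (1 + T^Q)^j` in characteristic `p`, `Q` a power of `p`, so
`p` divides `choose (j Q) i` when `Q` does not divide `i`. (Or: `(X + T)^Q = X^Q + T^Q` and Taylor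
expansions.) -/
def StHq : Prop := ∀ (F : Type) [Field F] [Fintype F] (u : F[X]) (k j : ℕ), k < Fintype.card F →
  hasseDeriv k (u * X ^ (j * Fintype.card F)) = hasseDeriv k u * X ^ (j * Fintype.card F)

/-- (In) Linear independence.

Proof. Otherwise let `j₀` be the least index with `(r_j, s_j) ≠ (0, 0)`; divide by `X^(j₀ Q)`. So we
may assume `(r_0, s_0) ≠ (0, 0)`. Let `h0 = ∑ r_j X^(jQ)`, `h1 = ∑ s_j X^(jQ)`, `h0 = - f^c h1`.
Square and multiply by `f`: `f h0² = f^(2c+1) h1² = f^Q h1²`, and `f^Q = f(X^Q)` (the coefficients are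
in `F`, `FiniteField.expand_card` or `Polynomial.expand_...`) is `≡ f(0)` modulo `X^Q`. So
`f r_0² ≡ f(0) s_0²` modulo `X^Q`; both sides have degree `< Q`, so `f r_0² = f(0) s_0²`. If `r_0 ≠ 0`
then `s_0 ≠ 0`, and an irreducible factor of `f` (`deg f ≥ 1`) divides `f` exactly once (`f` is
squarefree), the left side to an odd power and the right side to an even power: contradiction. So
`r_0 = 0`, `f(0) s_0² = 0` and `s_0 = 0`: contradiction. -/
def StIn : Prop := ∀ (F : Type) [Field F] [Fintype F] (f : F[X]) (c J : ℕ) (r s : Fin J → F[X]),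
  Fintype.card F = 2 * c + 1 → Squarefree f → f.coeff 0 ≠ 0 → 1 ≤ f.natDegree →
  (∀ j, f.natDegree + 2 * (r j).natDegree < Fintype.card F ∧
    2 * (s j).natDegree < Fintype.card F) →
  (∑ j : Fin J, (r j + s j * f ^ c) * X ^ ((j : ℕ) * Fintype.card F)) = 0 →
  ∀ j, r j = 0 ∧ s j = 0

/-- (Dm) Dimension count.

Proof. The pairs of families `(r, s)` with all degrees `< D` form a vector space of dimension `2 J D`
(`Polynomial.degreeLT`, or coefficient vectors `Fin J → Fin D → F`). For `k < ℓ` the polynomial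
`∑_j (W1 k (r_j) + a W2 k (s_j)) X^j` has degree `< D + k (m - 1) + J`, so it lies in a space of this
dimension; the sum over `k < ℓ` of the dimensions is `ℓ (D + J) + (m - 1) ℓ (ℓ - 1)/2 < 2 J D`. So the
linear map to the product of these spaces has a nonzero kernel
(`LinearMap.exists_ne_zero_of_finrank_lt`, `LinearMap.ker_ne_bot_of_finrank_lt`). -/
def StDm : Prop := ∀ (F : Type) [Field F] (m D J l : ℕ) (a : F) (W1 W2 : ℕ → F[X] →ₗ[F] F[X]),
  (∀ k, k < l → ∀ r : F[X], r.natDegree < D → (W1 k r).natDegree < D + k * (m - 1)) →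
  (∀ k, k < l → ∀ r : F[X], r.natDegree < D → (W2 k r).natDegree < D + k * (m - 1)) →
  1 ≤ D → l * (D + J) + (m - 1) * (l * (l - 1) / 2) < 2 * J * D →
  ∃ r s : Fin J → F[X], (∀ j, (r j).natDegree < D ∧ (s j).natDegree < D) ∧
    (∃ j, r j ≠ 0 ∨ s j ≠ 0) ∧
    ∀ k, k < l → (∑ j : Fin J, (W1 k (r j) + a • W2 k (s j)) * X ^ (j : ℕ)) = 0

/-- (Ax) The auxiliary polynomial (uses Hd, Hw, Hq, In, Dm).

Proof. Let `g = f^c`, `W1 k`, `W2 k` the maps of (Hw) for `t = l` and `t = l + c`, `k < l`. By (Dm)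
there are `r_j`, `s_j` of degree `< D`, not all zero, with
`σ_k = ∑ (W1 k (r_j) + a W2 k (s_j)) X^j = 0` for all `k < l`. Put
`R = f^l ∑_j (r_j + s_j g) X^(jQ)`. `R ≠ 0` by (In) (`2 (D - 1) + m < Q`). Degree: clear. Let
`f(x) = 0`: `X - x` divides `f`, so `(X - x)^l` divides `f^l`. Let `f(x)^c = a ≠ 0`, so `f(x) ≠ 0`;
for `k < l ≤ Q`, by (Hq) and (Hw), `E^k R = ∑_j (f^(l-k) W1 k (r_j) + f^(l+c-k) W2 k (s_j)) X^(jQ)`,
and at `x`, `x^Q = x`, this is `f(x)^(l-k) ∑_j (W1 k (r_j)(x) + a W2 k (s_j)(x)) x^j =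
f(x)^(l-k) σ_k(x) = 0`. All the Hasse derivatives of order `< l` vanish at `x`, so `(X - x)^l`
divides `R` (`taylor_coeff`, `X_pow_dvd_iff` for `taylor x R`). -/
def StAx : Prop := ∀ (F : Type) [Field F] [Fintype F] (f : F[X]) (a : F) (c D J l : ℕ),
  Fintype.card F = 2 * c + 1 → Squarefree f → f.coeff 0 ≠ 0 → 1 ≤ f.natDegree → a ≠ 0 →
  1 ≤ D → 2 * D + f.natDegree ≤ Fintype.card F → l ≤ Fintype.card F → 1 ≤ J →
  l * (D + J) + (f.natDegree - 1) * (l * (l - 1) / 2) < 2 * J * D →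
  ∃ R : F[X], R ≠ 0 ∧
    R.natDegree < l * f.natDegree + D + c * f.natDegree + (J - 1) * Fintype.card F ∧
    ∀ x : F, (f.eval x = 0 ∨ f.eval x ^ c = a) → (X - C x) ^ l ∣ R

open scoped Classical in
/-- (Ct) The count (uses Ax).

Proof. The polynomials `(X - x)^l` for distinct `x` are coprime, so their product over the set
divides `R`, and `l * #set ≤ deg R`. -/
def StCt : Prop := ∀ (F : Type) [Field F] [Fintype F] (f : F[X]) (a : F) (c D J l : ℕ),
  Fintype.card F = 2 * c + 1 → Squarefree f → f.coeff 0 ≠ 0 → 1 ≤ f.natDegree → a ≠ 0 →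
  1 ≤ D → 2 * D + f.natDegree ≤ Fintype.card F → l ≤ Fintype.card F → 1 ≤ J →
  l * (D + J) + (f.natDegree - 1) * (l * (l - 1) / 2) < 2 * J * D →
  l * (Finset.univ.filter fun x : F => f.eval x = 0 ∨ f.eval x ^ c = a).card <
    l * f.natDegree + D + c * f.natDegree + (J - 1) * Fintype.card F

open scoped Classical in
/-- (Nm) The choice of the parameters (uses Ct).

Proof. `Q ≥ 16 (m+1)²`, `√Q ≥ 4 (m + 1) ≥ 8`. Let `s = ⌊√Q / 2⌋`, so `4 s² ≤ Q` and
`s ≥ √Q/2 - 1 ≥ √Q/4`; `l = 2 s`, `J = s + m`, `D = c - m`. (Ct) applies: `2 D + m = Q - 1 - m ≤ Q`;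
`l (D + J) + (m-1) l (l-1)/2 = 2 s D + 2 s² + 2 s m + (m - 1)(2 s² - s) = 2 s D + 2 m s² + s (m+1)`
(`2 s² + (m-1) 2 s² = 2 m s²`, `2 s m - (m-1) s = s (m+1)`), and `2 J D = 2 s D + 2 m D`,
`2 m D = m (Q - 1) - 2 m²`, `2 m s² ≤ m Q/2`, and `s (m+1) + m + 2 m² < m Q/2` because
`s (m + 1) ≤ m √Q` and `√Q + 1 + 2 m < Q/2`. So
`2 s #S < 2 s m + (m+1) c + (s + m - 1) Q ≤ 2 s m + (m + 1) Q/2 + (s + m - 1) Q`, and dividing by
`2 s`: `#S ≤ m + Q/2 + (3 m - 1) Q/(4 s) ≤ Q/2 + m + (3 m - 1) √Q ≤ Q/2 + 4 m √Q`. -/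
def StNm : Prop := ∀ (F : Type) [Field F] [Fintype F] (f : F[X]) (a : F) (c : ℕ),
  Fintype.card F = 2 * c + 1 → Squarefree f → f.coeff 0 ≠ 0 → 1 ≤ f.natDegree → a ≠ 0 →
  16 * (f.natDegree + 1) ^ 2 ≤ Fintype.card F →
  ((Finset.univ.filter fun x : F => f.eval x = 0 ∨ f.eval x ^ c = a).card : ℝ) ≤
    (Fintype.card F : ℝ) / 2 + 4 * f.natDegree * √(Fintype.card F : ℝ)

open scoped Classical in
/-- (Ch) The character sum (uses Nm).

Proof. `χ(u) = 1` iff `u^c = 1`, `χ(u) = -1` iff `u^c = -1` (`quadraticChar_eq_pow_of_char_ne_two'`,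
characteristic `≠ 2` because `Q` is odd). Let `n₁`, `n₂`, `n₀` be the numbers of `y` with
`χ(f y) = 1, -1, 0`; `n₀ ≤ m`, `n₁ + n₂ + n₀ = Q`, and by (Nm) for `a = 1`, `a = -1`,
`n₁, n₂ ≤ Q/2 + 4 m √Q`. The sum is `n₁ - n₂`; `n₁ - n₂ = 2 n₁ - (n₁ + n₂) ≤ 2 n₁ - Q + m ≤
8 m √Q + m ≤ 9 m √Q` and the same for `n₂ - n₁`. -/
def StCh : Prop := ∀ (F : Type) [Field F] [Fintype F] (f : F[X]) (c : ℕ),
  Fintype.card F = 2 * c + 1 → Squarefree f → f.coeff 0 ≠ 0 → 1 ≤ f.natDegree →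
  16 * (f.natDegree + 1) ^ 2 ≤ Fintype.card F →
  |((∑ y : F, quadraticChar F (f.eval y) : ℤ) : ℝ)| ≤ 9 * f.natDegree * √(Fintype.card F : ℝ)

/-- (Sq) The polynomial `(X^p - X)² - e`.

Proof. Degree `2 p` (`X^p - X` is monic of degree `p ≥ 2`). Its value at `0` is `-e ≠ 0`. The
derivative of `X^p - X` is `-1` in characteristic `p`, so `f' = -2 (X^p - X)`; `f` and `f'` are
coprime: `f = (X^p - X)² - e` and `e ≠ 0`, `2 ≠ 0`: `(X^p - X) * (-1/2) f' - f = e`. So `f` is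
separable, hence squarefree (`Polynomial.Separable.squarefree`). -/
def StSq : Prop := ∀ (p : ℕ) [Fact p.Prime] (F : Type) [Field F] [CharP F p] (e : F), p ≠ 2 →
  e ≠ 0 → ((X ^ p - X) ^ 2 - C e : F[X]).natDegree = 2 * p ∧
    Squarefree ((X ^ p - X) ^ 2 - C e : F[X]) ∧ ((X ^ p - X) ^ 2 - C e : F[X]).coeff 0 ≠ 0

open scoped Classical in
/-- (Hi) Additive Hilbert 90 for finite fields.

Proof. `L y = y^p - y` is additive (`ZMod p` linear), its kernel is the prime field (`p` elements: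
`y^p = y`, `FiniteField.pow_card` and at most `p` roots), and its image is contained in the kernel of
the trace (`Tr(y^p) = Tr(y)`: the Frobenius is an automorphism). The trace is onto `ZMod p`
(`Algebra.trace_surjective` or nondegeneracy), so its kernel has `Q/p` elements, as many as the
image. So the image is the kernel of the trace and all the nonempty fibres have `p` elements. -/
def StHi : Prop := ∀ (p : ℕ) [Fact p.Prime] (F : Type) [Field F] [Fintype F] [Algebra (ZMod p) F]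
  (u : F), (Finset.univ.filter fun y : F => y ^ p - y = u).card =
    if Algebra.trace (ZMod p) F u = 0 then p else 0

open scoped Classical in
/-- (Qd) The number of solutions of a quadratic equation.

Proof. `x = 0` is not a solution since `b ≠ 0`. Multiply by `4 a ≠ 0`:
`(2 a x - t)² = t² - 4 a b`; `x ↦ 2 a x - t` is a bijection of `F`, and the number of square roots of
`d` is `χ(d) + 1` (`quadraticChar_card_sqrts`). -/
def StQd : Prop := ∀ (F : Type) [Field F] [Fintype F] (a b t : F), ringChar F ≠ 2 → a ≠ 0 →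
  b ≠ 0 → (((Finset.univ.filter fun x : F => x ≠ 0 ∧ a * x ^ 2 - t * x + b = 0).card : ℕ) : ℤ) =
    1 + quadraticChar F (t ^ 2 - 4 * a * b)

open scoped Classical in
/-- (Sm) The sum over the multiples of the character (uses Hi, Qd).

Proof. `∑_{t : ZMod p} Sn(t a, t b) = ∑_{x ≠ 0} ∑_t ψ(t Tr(a x + b/x)) = p #{x ≠ 0 : Tr(a x + b/x) = 0}`
(orthogonality of `ZMod.stdAddChar`, `Algebra.trace` is linear), which by (Hi) is the number of
pairs `(x, y)`, `x ≠ 0`, `y^p - y = a x + b/x`, that is `a x² - (y^p - y) x + b = 0`; by (Qd) this is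
`∑_y (1 + χ((y^p - y)² - 4 a b)) = Q + ∑_y χ(..)`. The term `t = 0` is `Q - 1`. -/
def StSm : Prop := ∀ (p : ℕ) [Fact p.Prime] (F : Type) [Field F] [Fintype F] [Algebra (ZMod p) F]
  (a b : ZMod p), p ≠ 2 → a ≠ 0 → b ≠ 0 →
  (∑ t ∈ (Finset.univ : Finset (ZMod p)).erase 0, Sn p F (t * a) (t * b)) =
    1 + ((∑ y : F, quadraticChar F ((y ^ p - y) ^ 2 - 4 * algebraMap (ZMod p) F (a * b)) : ℤ) : ℂ)

/-- (Bd) The bound (uses Ch, Sq, Sm).

Proof. `Q = p^n` is odd, `Q ≥ 16 (2p + 1)²` for `n ≥ n₀ = 6 + something` (for instance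
`n₀` with `p^n₀ ≥ 16 (2p+1)²`, monotone). By (Sm), (Ch) with `f = (X^p - X)² - 4 a b` and (Sq) the sum
is at most `1 + 9 (2 p) √Q ≤ 19 p √Q`, `√Q = (√p)^n`. -/
def StBd : Prop := ∀ (p : ℕ) [Fact p.Prime] (a b : ZMod p), p ≠ 2 → a ≠ 0 → b ≠ 0 →
  ∃ n₀ : ℕ, ∀ (F : Type) [Field F] [Fintype F] [Algebra (ZMod p) F] (n : ℕ), n₀ ≤ n →
    Fintype.card F = p ^ n →
    ‖∑ t ∈ (Finset.univ : Finset (ZMod p)).erase 0, Sn p F (t * a) (t * b)‖ ≤
      19 * p * (√(p : ℝ)) ^ n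

end Pool.Agent.Work.MP_122e00_nt.KL
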