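import Pool.Agent.Work.MP_122e00_nt.KL.StmtsA

/-!
# Block KL, part B (captain helper20): the `L`-function of the Kloosterman sums, power sums, and
# Weil's bound `|S(a, b; p)| ≤ 2 √p`

The docstring of each statement is its complete proof; nothing here is a theorem.  Each item `Xx`
proves `StXx` in the file `I_Xx.lean`.
-/

open Polynomial Finset

namespace Pool.Agent.Work.MP_122e00_nt.KL

/-! ### The `L`-function -/

/-- (Mp, EASY) `mp n c = X^n + lower terms` is monic of degree `n` with the coefficients `c`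
(`monic_X_pow_add`, `degree` of the sum is `< n`, `finset_sum_coeff`), and a monic polynomial of degree
`n` is `mp n` of its coefficients (`Monic.as_sum`, `as_sum_range`). -/
def StMp : Prop := ∀ (p : ℕ) [Fact p.Prime] (n : ℕ),
  (∀ c : Fin n → ZMod p, (mp n c).Monic ∧ (mp n c).natDegree = n ∧
    ∀ i : Fin n, (mp n c).coeff i = c i) ∧
  ∀ h : (ZMod p)[X], h.Monic → h.natDegree = n → mp n (fun i : Fin n => h.coeff i) = h

/-- (Et, EASY-MEDIUM) For monic `g`, `h`: `nextCoeff (g h) = nextCoeff g + nextCoeff h`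
(`Monic.nextCoeff_mul`), `(g h)_0 = g_0 h_0`, `(g h)_1 = g_0 h_1 + g_1 h_0` (`mul_coeff_one`), so
`(g h)_1/(g h)_0 = g_1/g_0 + h_1/h_0` if `g_0, h_0 ≠ 0`; `ψ` is a character.  If `g_0 = 0` or
`h_0 = 0` both sides are `0`. -/
def StEt : Prop := ∀ (p : ℕ) [Fact p.Prime] (a b : ZMod p), eta p a b 1 = 1 ∧
  ∀ g h : (ZMod p)[X], g.Monic → h.Monic → eta p a b (g * h) = eta p a b g * eta p a b h

/-- (C1, EASY-MEDIUM) `LS 0 = η 1 = 1` (`Fin 0 → ZMod p` has one element, `mp 0 c = 1`), and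
`LS 1 = ∑_v η(X + C v) = ∑_(v≠0) ψ(-a v - b/v) = KS p a b` (`x = -v`; `nextCoeff (X + C v) = v`,
the coefficient of index `1` is `1`).  USES Et (or direct). -/
def StC1 : Prop := ∀ (p : ℕ) [Fact p.Prime] (a b : ZMod p),
  LS p (eta p a b) 0 = 1 ∧ LS p (eta p a b) 1 = KS p a b

/-- (C2, EASY-MEDIUM) `mp 2 (v, u) = X^2 + u X + v`; `nextCoeff` and the coefficient of index `1` are
both `u`.  So `LS 2 = ∑_(v≠0) ∑_u ψ(-u (a + b/v))`, the inner sum is `p` if `a + b/v = 0`, that is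
`v = -b/a` (one value, not zero), and `0` otherwise (`ψ` is primitive:
`ZMod.isPrimitive_stdAddChar`, `AddChar.sum_mulShift`). -/
def StC2 : Prop := ∀ (p : ℕ) [Fact p.Prime] (a b : ZMod p), a ≠ 0 → b ≠ 0 →
  LS p (eta p a b) 2 = p

/-- (C3, MEDIUM) Let `n ≥ 3`.  For `c : Fin n → ZMod p`, `c_0 ≠ 0`:
`η(mp n c) = ψ(-a c_(n-1) - b c_1/c_0)`, and `n - 1` is different from `0` and `1`.  The bijection
`c ↦ c + u e_(n-1)` of `Fin n → ZMod p` (`Function.update` or `Pi.single`) multiplies `η(mp n c)` by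
`ψ(-a u)`.  So `LS n = ψ(-a u) LS n` for every `u`, and `ψ(-a u) ≠ 1` for some `u` (`ψ` is
primitive and `a ≠ 0`).  So `LS n = 0`. -/
def StC3 : Prop := ∀ (p : ℕ) [Fact p.Prime] (a b : ZMod p), a ≠ 0 → ∀ n : ℕ, 3 ≤ n →
  LS p (eta p a b) n = 0

open scoped Classical in
/-- (Dg, MEDIUM) The degree as a sum over prime powers.  For monic `h` of degree `n ≥ 1` unique
factorization (`UniqueFactorizationMonoid.normalizedFactors`, all of them monic irreducible) gives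
`n = ∑_P v_P(h) deg P`, and `v_P(h)` is the number of the `k ≥ 1` with `P^k ∣ h`
(`k deg P ≤ n`).  The monic irreducible `P` of degree `d` are the `mp d c` (`StMp`; different `c`
give different polynomials).  Or: strong induction on the degree, `h = P₀ h'`.  USES Mp. -/
def StDg : Prop := ∀ (p : ℕ) [Fact p.Prime] (h : (ZMod p)[X]) (n : ℕ), h.Monic → h.natDegree = n →
  (n : ℕ) = ∑ d ∈ Icc 1 n, d * ∑ k ∈ Icc 1 n,
    ((univ : Finset (Fin d → ZMod p)).filter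
      (fun c => Irreducible (mp d c) ∧ mp d c ^ k ∣ h)).card

open scoped Classical in
/-- (Sh, EASY-MEDIUM) Division by a power of a monic polynomial.  `h ↦ P^k h` is a bijection from the
monic polynomials of degree `n - k d` to the monic polynomials of degree `n` divisible by `P^k`
(`k d ≤ n`; if `k d > n` no monic polynomial of degree `n` is divisible by `P^k`), and
`η(P^k h) = η(P)^k η(h)`.  USES Mp. -/
def StSh : Prop := ∀ (p : ℕ) [Fact p.Prime] (η : (ZMod p)[X] → ℂ), η 1 = 1 →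
  (∀ g h : (ZMod p)[X], g.Monic → h.Monic → η (g * h) = η g * η h) →
  ∀ (P : (ZMod p)[X]) (d k n : ℕ), P.Monic → P.natDegree = d →
  (k * d ≤ n → ∑ c ∈ (univ : Finset (Fin n → ZMod p)).filter (fun c => P ^ k ∣ mp n c),
    η (mp n c) = η P ^ k * LS p η (n - k * d)) ∧
  (n < k * d → ∀ c : Fin n → ZMod p, ¬ P ^ k ∣ mp n c)

/-- (Ne, MEDIUM) Newton's identity.  `n LS n = ∑_c n η(mp n c)`; by `StDg` this is the sum of
`d η(mp n c)` over `d, k ∈ [1, n]`, `c' : Fin d → ZMod p` with `P = mp d c'` irreducible and `c` with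
`P^k ∣ mp n c`.  Sum over `c` first (`StSh`): `d η(P)^k LS (n - k d)` if `k d ≤ n`, and `0` otherwise.
Put `j = k d` (`1 ≤ j ≤ n`, `d ∣ j`, `k = j/d`): this is `∑_j Lam j LS (n - j)`.  USES Dg Sh Mp. -/
def StNe : Prop := ∀ (p : ℕ) [Fact p.Prime] (η : (ZMod p)[X] → ℂ), η 1 = 1 →
  (∀ g h : (ZMod p)[X], g.Monic → h.Monic → η (g * h) = η g * η h) → ∀ n : ℕ, 1 ≤ n →
  (n : ℂ) * LS p η n = ∑ j ∈ Icc 1 n, Lam p η j * LS p η (n - j)

/-- (Mi, EASY-MEDIUM) The minimal polynomial of the inverse.  `P = minpoly x` has `P(0) ≠ 0`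
(`x ≠ 0`), `P.reverse` has degree `d = deg P` and vanishes at `x⁻¹`
(`eval₂_reverse_eq_zero_iff`), so `C (P(0)⁻¹) * P.reverse` is monic of degree `d` and vanishes at
`x⁻¹`; `deg (minpoly x⁻¹) = [K(x⁻¹) : K] = [K(x) : K] = d`, so it is the minimal polynomial
(`minpoly.unique'` or `minpoly.dvd` and degrees).  Its `nextCoeff` is
`P.coeff 1 * (P.coeff 0)⁻¹` (`d ≥ 1`: the coefficient of index `d - 1` of the reverse is that of index
`1` of `P`). -/
def StMi : Prop := ∀ (K F : Type) [Field K] [Field F] [Algebra K F] [FiniteDimensional K F]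
  (x : F), x ≠ 0 →
  (minpoly K x).coeff 0 ≠ 0 ∧ (minpoly K x⁻¹).natDegree = (minpoly K x).natDegree ∧
  (minpoly K x⁻¹).nextCoeff = (minpoly K x).coeff 1 * ((minpoly K x).coeff 0)⁻¹

/-- (Tm, EASY-MEDIUM) Let `P = minpoly x`, `d` its degree, `n = [F : ZMod p] = d e`,
`e = [F : (ZMod p)(x)]`.  `Tr x = -e P.nextCoeff` (`trace_eq_finrank_mul_minpoly_nextCoeff`), and
`Tr x⁻¹ = -e (P_1/P_0)` by `StMi` (same `e`).  So
`ψ(Tr (a x + b x⁻¹)) = ψ(e (-(a P.nextCoeff) - b (P_1/P_0))) = η(P)^e` (`AddChar.map_nsmul_eq_pow`).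
USES Mi. -/
def StTm : Prop := ∀ (p : ℕ) [Fact p.Prime] (F : Type) [Field F] [Fintype F]
  [Algebra (ZMod p) F] (a b : ZMod p) (x : F), x ≠ 0 →
  (minpoly (ZMod p) x).natDegree ∣ Module.finrank (ZMod p) F ∧
  ZMod.stdAddChar (Algebra.trace (ZMod p) F (a • x + b • x⁻¹)) =
    eta p a b (minpoly (ZMod p) x) ^
      (Module.finrank (ZMod p) F / (minpoly (ZMod p) x).natDegree)

/-- (Fb, MEDIUM) Let `P` be monic irreducible of degree `d ∣ n`, `card F = p^n`.  `P` divides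
`X^(p^n) - X` over `ZMod p` (in the field `AdjoinRoot P`, with `p^d` elements, the root `y`
satisfies `y^(p^d) = y`, so `y^(p^n) = y`), and `X^(p^n) - X` is the product of the `X - x`,
`x ∈ F` (`FiniteField.X_pow_card_sub_X...`, `FiniteField.roots_X_pow_card_sub_X`).  So `P` splits
in `F` with `d` different roots, and they are the `x` with `minpoly x = P`
(`minpoly.eq_of_irreducible_of_monic`). -/
def StFb : Prop := ∀ (p : ℕ) [Fact p.Prime] (F : Type) [Field F] [Fintype F]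
  [Algebra (ZMod p) F] (P : (ZMod p)[X]), P.Monic → Irreducible P →
  P.natDegree ∣ Module.finrank (ZMod p) F →
  Nat.card {x : F // minpoly (ZMod p) x = P} = P.natDegree

/-- (La, MEDIUM) Group the `x ≠ 0` in `F` by their minimal polynomial: by `StTm` the term of `x` is
`η(P)^(n/d)`, `P = minpoly x = mp d c` irreducible, `d ∣ n`; by `StFb` every such `P` with `d ∣ n`
has `d` such `x` (for `P = X`, `x = 0` and `η(X)^n = 0`, `n ≥ 1`).  USES Tm Fb Mp. -/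
def StLa : Prop := ∀ (p : ℕ) [Fact p.Prime] (F : Type) [Field F] [Fintype F]
  [Algebra (ZMod p) F] (a b : ZMod p),
  Sn p F a b = Lam p (eta p a b) (Module.finrank (ZMod p) F)

/-- (Re, EASY) `n = 1`: `L 1 = c 1 = K = -(α + β)`.  `n = 2`: `2 q = L 1 c 1 + L 2`, so
`L 2 = 2 q - K^2 = -(α^2 + β^2)`.  `n ≥ 3`: `0 = L n + L (n-1) K + L (n-2) q`, and
`α^n + β^n = (α + β)(α^(n-1) + β^(n-1)) - α β (α^(n-2) + β^(n-2))`.  Strong induction. -/
def StRe : Prop := ∀ (c L : ℕ → ℂ) (K q α β : ℂ), c 0 = 1 → c 1 = K → c 2 = q →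
  (∀ n, 3 ≤ n → c n = 0) →
  (∀ n : ℕ, 1 ≤ n → (n : ℂ) * c n = ∑ j ∈ Icc 1 n, L j * c (n - j)) →
  α + β = -K → α * β = q → ∀ n : ℕ, 1 ≤ n → L n = -(α ^ n + β ^ n)

/-! ### The end -/

/-- (Cl, EASY-MEDIUM) The sequence `t ↦ (u i ^ t)_i` lies in a compact set, so it has a convergent
subsequence, and there are `t₁`, `t₂ ≥ t₁ + T` with `‖u i ^ t₂ - u i ^ t₁‖ < ε` for all `i`; divide by
`u i ^ t₁`: `‖u i ^ (t₂ - t₁) - 1‖ < ε`. -/
def StCl : Prop := ∀ (ι : Type) [Fintype ι] (u : ι → ℂ), (∀ i, ‖u i‖ = 1) → ∀ ε : ℝ, 0 < ε →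
  ∀ T : ℕ, ∃ t : ℕ, T ≤ t ∧ ∀ i, ‖u i ^ t - 1‖ < ε

/-- (Po, EASY-MEDIUM) Let `u i = ω i / ‖ω i‖` (`u i = 1` if `ω i = 0`).  By `StCl` there are infinitely many
`t ≥ max T 1` with `‖u i ^ t - 1‖ < 1/2`, so `Re (ω i ^ t) ≥ ‖ω i‖^t/2` for all `i`, and
`‖ω i‖^t/2 ≤ Re ∑ ω_j^t ≤ B r^t`.  If `‖ω i‖ > r` then `(‖ω i‖/r)^t > 2 B` for all large `t`:
contradiction.  USES Cl. -/
def StPo : Prop := ∀ (ι : Type) [Fintype ι] (ω : ι → ℂ) (B r : ℝ) (T : ℕ), 0 < r →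
  (∀ t : ℕ, T ≤ t → ‖∑ i, ω i ^ t‖ ≤ B * r ^ t) → ∀ i, ‖ω i‖ ≤ r

/-- (WeP, MEDIUM) Weil's bound.  `p = 2`: `KS` has one term, of absolute value `1`.  Let `p` be odd.
For `t ≠ 0` let `α_t`, `β_t` be the roots of `T^2 + KS p (t a) (t b) T + p` (`α + β = -KS`,
`α β = p`).  For `n ≥ max n₀ 1` (`StBd`) let `F = GaloisField p n`, `card F = p^n`
(`Fintype.ofFinite`; `finrank = n`).  `Sn p F (t a) (t b) = Lam n = -(α_t^n + β_t^n)` (`StLa`, `StRe`
with `StC1`, `StC2`, `StC3`, `StNe`, `StEt`), so by `StBd`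
`‖∑_(t≠0) (α_t^n + β_t^n)‖ ≤ 19 p (√p)^n`.  `StPo` with `r = √p` (index type: two copies of the
nonzero `t`) gives `‖α_t‖, ‖β_t‖ ≤ √p`; for `t = 1`: `‖KS p a b‖ = ‖α + β‖ ≤ 2 √p`.
USES Bd Et C1 C2 C3 Ne La Re Po. -/
def StWeilP : Prop := ∀ (p : ℕ) [Fact p.Prime] (a b : ZMod p), a ≠ 0 → b ≠ 0 →
  ‖KS p a b‖ ≤ 2 * √(p : ℝ)

end Pool.Agent.Work.MP_122e00_nt.KL
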